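import Pool.Agent.SPW.Defs

/-! Alternating label sets: the parity lemma. -/

open Finset

namespace Pool.Agent.SPW

variable {ι : Type*} {b : ℤ} {S : Finset ι} {l l' : ι → ℤ}

theorem alt_empty (b : ℤ) (l : ι → ℤ) : Alt b ∅ l := by
  refine ⟨?_, ?_⟩ <;> simp

theorem alt_congr (h : ∀ x ∈ S, l x = l' x) : Alt b S l ↔ Alt b S l' := by
  have key : ∀ {l l' : ι → ℤ}, (∀ x ∈ S, l x = l' x) → Alt b S l → Alt b S l' := by
    intro l l' h ⟨h1, h2⟩
    refine ⟨fun x hx y hy hxy => h1 x hx y hy (by rw [h x hx, h y hy]; exact hxy), fun x hx => ?_⟩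
    have h3 : (S.filter fun y => |l' y| < |l' x|) = S.filter fun y => |l y| < |l x| := by
      refine filter_congr fun y hy => ?_
      rw [h x hx, h y hy]
    rw [h3, ← h x hx]
    exact h2 x hx
  exact ⟨key h, key fun x hx => (h x hx).symm⟩

theorem alt_neg : Alt b S (fun x => - l x) ↔ Alt (-b) S l := by
  unfold Alt
  simp only [abs_neg, Int.sign_neg]
  refine and_congr_right fun _ => forall₂_congr fun x _ => ?_
  constructor
  · intro h; linarith
  · intro h; linarith

theorem alt_single {x : ι} (hl : l x ≠ 0) :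
    ind (Alt 1 {x} l) + ind (Alt (-1) {x} l) = 1 := by
  have key : ∀ b : ℤ, Alt b {x} l ↔ (l x).sign = b := by
    intro b
    unfold Alt
    simp only [mem_singleton, forall_eq, implies_true, true_and]
    rw [filter_singleton, if_neg (lt_irrefl _), card_empty, pow_zero, mul_one]
  rw [ind_congr (key 1), ind_congr (key (-1))]
  rcases lt_or_gt_of_ne hl with h | h
  · rw [Int.sign_eq_neg_one_of_neg h, ind_neg (by decide), ind_pos rfl]; rfl
  · rw [Int.sign_eq_one_of_pos h, ind_neg (p := (1 : ℤ) = -1) (by decide), ind_pos rfl]; rfl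

theorem alt_card {N : ℕ} (h : Alt b S l) (h0 : ∀ x ∈ S, l x ≠ 0) (hN : ∀ x ∈ S, |l x| ≤ N) :
    S.card ≤ N := by
  have h1 : S.card ≤ (Finset.Icc (1 : ℤ) N).card := by
    refine card_le_card_of_injOn (fun x => |l x|) ?_ ?_
    · intro x hx
      rw [coe_Icc, Set.mem_Icc]
      exact ⟨Int.one_le_abs (h0 x hx), hN x hx⟩
    · intro x hx y hy hxy
      exact h.1 x hx y hy hxy
  simpa using h1

theorem alt_erase_max [DecidableEq ι] {m : ι} (hm : m ∈ S) (hmax : ∀ x ∈ S, x ≠ m → |l x| < |l m|) :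
    Alt b S l ↔ Alt b (S.erase m) l ∧ (l m).sign = b * (-1) ^ (S.erase m).card := by
  have hf : ∀ x ∈ S.erase m, (S.filter fun y => |l y| < |l x|) =
      (S.erase m).filter fun y => |l y| < |l x| := by
    intro x hx
    rw [filter_erase]
    refine (erase_eq_of_notMem ?_).symm
    rw [mem_filter]
    rintro ⟨_, h⟩
    exact absurd h (not_lt.2 (hmax x (mem_of_mem_erase hx) (ne_of_mem_erase hx)).le)
  have hfm : (S.filter fun y => |l y| < |l m|) = S.erase m := by
    ext y
    rw [mem_filter, mem_erase]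
    constructor
    · rintro ⟨h1, h2⟩
      refine ⟨?_, h1⟩
      rintro rfl
      exact lt_irrefl _ h2
    · rintro ⟨h1, h2⟩
      exact ⟨h2, hmax y h2 h1⟩
  constructor
  · rintro ⟨h1, h2⟩
    refine ⟨⟨fun x hx y hy => h1 x (mem_of_mem_erase hx) y (mem_of_mem_erase hy), fun x hx => ?_⟩, ?_⟩
    · rw [← hf x hx]; exact h2 x (mem_of_mem_erase hx)
    · rw [← hfm]; exact h2 m hm
  · rintro ⟨⟨h1, h2⟩, h3⟩
    refine ⟨?_, ?_⟩
    · intro x hx y hy hxy
      by_cases hxm : x = m
      · by_cases hym : y = m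
        · rw [hxm, hym]
        · exact absurd hxy (by rw [hxm]; exact (hmax y hy hym).ne')
      · by_cases hym : y = m
        · exact absurd hxy (by rw [hym]; exact (hmax x hx hxm).ne)
        · exact h1 x (mem_erase.2 ⟨hxm, hx⟩) y (mem_erase.2 ⟨hym, hy⟩) hxy
    · intro x hx
      by_cases hxm : x = m
      · rw [hxm, hfm]; exact h3
      · rw [hf x (mem_erase.2 ⟨hxm, hx⟩)]; exact h2 x (mem_erase.2 ⟨hxm, hx⟩)

theorem ind_and (p q : Prop) : ind (p ∧ q) = ind p * ind q := by
  by_cases hp : p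
  · by_cases hq : q
    · rw [ind_pos hp, ind_pos hq, ind_pos ⟨hp, hq⟩, mul_one]
    · rw [ind_neg hq, ind_neg fun h => hq h.2, mul_zero]
  · rw [ind_neg hp, ind_neg fun h => hp h.1, zero_mul]

private theorem two_eq (a : ZMod 2) : a + a = 0 := CharTwo.add_self_eq_zero a

/-- the parity lemma for distinct absolute values -/
theorem alt_parity_inj [DecidableEq ι] (h0 : ∀ x ∈ S, l x ≠ 0)
    (hinj : ∀ x ∈ S, ∀ y ∈ S, |l x| = |l y| → x = y) :
    ind (Alt 1 S l) + ind (Alt (-1) S l) = ∑ i ∈ S, ind (Alt 1 (S.erase i) l) := by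
  induction hn : S.card using Nat.strong_induction_on generalizing S with
  | _ n ih =>
  rcases S.eq_empty_or_nonempty with rfl | hne
  · rw [sum_empty, ind_pos (alt_empty _ _), ind_pos (alt_empty _ _)]; rfl
  obtain ⟨m, hm, hmax'⟩ := exists_max_image S (fun x => |l x|) hne
  have hmax : ∀ x ∈ S, x ≠ m → |l x| < |l m| := fun x hx hxm =>
    lt_of_le_of_ne (hmax' x hx) fun h => hxm (hinj x hx m hm h)
  set S' := S.erase m with hS'
  have hIH := ih S'.card (by rw [← hn]; exact card_erase_lt_of_mem hm) (S := S')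
    (fun x hx => h0 x (mem_of_mem_erase hx))
    (fun x hx y hy => hinj x (mem_of_mem_erase hx) y (mem_of_mem_erase hy)) rfl
  have hterm : ∀ i ∈ S', ind (Alt 1 (S.erase i) l) =
      ind (Alt 1 (S'.erase i) l) * ind ((l m).sign = -(-1) ^ S'.card) := by
    intro i hi
    have him : i ≠ m := ne_of_mem_erase hi
    have h1 : m ∈ S.erase i := mem_erase.2 ⟨him.symm, hm⟩
    have h2 : (S.erase i).erase m = S'.erase i := erase_right_comm
    rw [ind_congr (alt_erase_max (b := 1) h1 fun x hx => hmax x (mem_of_mem_erase hx)), ind_and, h2]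
    congr 1
    refine ind_congr ?_
    have h3 : S'.card = (S'.erase i).card + 1 := (card_erase_add_one hi).symm
    rw [h3, pow_succ, one_mul, mul_neg, mul_one, neg_neg]
  rw [← insert_erase hm, sum_insert (notMem_erase m S), insert_erase hm, ← hS', sum_congr rfl hterm,
    ← sum_mul, ← hIH, ind_congr (alt_erase_max (b := 1) hm hmax),
    ind_congr (alt_erase_max (b := -1) hm hmax), ind_and, ind_and, ← hS']
  have hs : ind ((l m).sign = 1 * (-1) ^ S'.card) + ind ((l m).sign = -(-1) ^ S'.card) = 1 := by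
    have hp : ((-1 : ℤ)) ^ S'.card = 1 ∨ ((-1 : ℤ)) ^ S'.card = -1 := neg_one_pow_eq_or ℤ _
    rcases lt_or_gt_of_ne (h0 m hm) with h | h
    · rw [Int.sign_eq_neg_one_of_neg h]
      rcases hp with hp | hp <;> rw [hp]
      · rw [ind_neg (by decide), ind_pos rfl]; rfl
      · rw [ind_pos (p := (-1 : ℤ) = 1 * -1) (by decide), ind_neg (by decide)]; rfl
    · rw [Int.sign_eq_one_of_pos h]
      rcases hp with hp | hp <;> rw [hp]
      · rw [ind_pos (p := (1 : ℤ) = 1 * 1) (by decide), ind_neg (by decide)]; rfl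
      · rw [ind_neg (p := (1 : ℤ) = 1 * -1) (by decide), ind_pos (by decide)]; rfl
  have hs2 : ind ((l m).sign = -1 * (-1) ^ S'.card) = ind ((l m).sign = -(-1) ^ S'.card) := by
    rw [neg_one_mul]
  rw [hs2]
  have hA := two_eq (ind (Alt 1 S' l) * ind ((l m).sign = -(-1) ^ S'.card))
  have hs' : ind ((l m).sign = 1 * (-1) ^ S'.card) =
      1 - ind ((l m).sign = -(-1) ^ S'.card) := by rw [← hs]; ring
  rw [hs']
  linear_combination (-1 : ZMod 2) * hA

theorem alt_map (e : Equiv.Perm ι) :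
    Alt b (S.map e.toEmbedding) l ↔ Alt b S fun x => l (e x) := by
  unfold Alt
  simp only [forall_mem_map, Equiv.coe_toEmbedding, EmbeddingLike.apply_eq_iff_eq]
  refine and_congr_right fun _ => forall₂_congr fun x _ => ?_
  rw [filter_map, card_map]
  rfl

theorem alt_erase_eq [DecidableEq ι] {x y : ι} (hx : x ∈ S) (hy : y ∈ S) (h : l x = l y) :
    Alt b (S.erase x) l ↔ Alt b (S.erase y) l := by
  have h1 : S.erase y = (S.erase x).map (Equiv.swap x y).toEmbedding := by
    ext z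
    rw [mem_map_equiv, Equiv.symm_swap, mem_erase, mem_erase]
    by_cases hzx : z = x
    · rw [hzx, Equiv.swap_apply_left]
      by_cases hxy : x = y
      · simp [hxy]
      · simp [hx, hy, hxy, Ne.symm hxy]
    · by_cases hzy : z = y
      · rw [hzy, Equiv.swap_apply_right]
        simp
      · rw [Equiv.swap_apply_of_ne_of_ne hzx hzy]
        simp [hzx, hzy]
  rw [h1, alt_map]
  refine alt_congr fun z _ => ?_
  by_cases hzx : z = x
  · rw [hzx, Equiv.swap_apply_left, h]
  · by_cases hzy : z = y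
    · rw [hzy, Equiv.swap_apply_right, h]
    · rw [Equiv.swap_apply_of_ne_of_ne hzx hzy]

/-- **The parity lemma.** -/
theorem alt_parity [DecidableEq ι] (h0 : ∀ x ∈ S, l x ≠ 0)
    (hc : ∀ x ∈ S, ∀ y ∈ S, l x ≠ - l y) :
    ind (Alt 1 S l) + ind (Alt (-1) S l) = ∑ i ∈ S, ind (Alt 1 (S.erase i) l) := by
  by_cases hinj : ∀ x ∈ S, ∀ y ∈ S, |l x| = |l y| → x = y
  · exact alt_parity_inj h0 hinj
  rw [ind_neg fun h => hinj h.1, ind_neg fun h => hinj h.1, add_zero]
  push Not at hinj
  obtain ⟨x, hx, y, hy, hxy, hne⟩ := hinj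
  have hlxy : l x = l y := by
    rcases abs_eq_abs.1 hxy with h | h
    · exact h
    · exact absurd h (hc x hx y hy)
  have h1 : ∀ i ∈ S, i ≠ x → i ≠ y → ind (Alt 1 (S.erase i) l) = 0 := by
    intro i _ hix hiy
    refine ind_neg fun h => hne ?_
    exact h.1 x (mem_erase.2 ⟨hix.symm, hx⟩) y (mem_erase.2 ⟨hiy.symm, hy⟩) hxy
  have h2 : ind (Alt 1 (S.erase x) l) = ind (Alt 1 (S.erase y) l) :=
    ind_congr (alt_erase_eq hx hy hlxy)
  rw [← add_sum_erase S _ hx, ← add_sum_erase (S.erase x) _ (mem_erase.2 ⟨hne.symm, hy⟩),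
    sum_eq_zero, add_zero, h2, two_eq]
  intro i hi
  have hi1 := mem_of_mem_erase hi
  exact h1 i (mem_of_mem_erase hi1) (ne_of_mem_erase hi1) (ne_of_mem_erase hi)

end Pool.Agent.SPW
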