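import Pool.Agent.SPW.G5

/-! The alternating flags. -/

open Finset

namespace Pool.Agent.SPW

variable {n s q : ℕ}

theorem cnt_zero (w : Fin (q * s) → Fin s) (k : Fin s) : cnt w k 0 = 0 := by
  unfold cnt
  rw [card_eq_zero, filter_eq_empty_iff]
  rintro i _ ⟨h, _⟩
  exact absurd h (Nat.not_lt_zero _)

theorem cnt_succ_self (w : Fin (q * s) → Fin s) (j : Fin (q * s)) :
    cnt w (w j) ((j : ℕ) + 1) = cnt w (w j) j + 1 := by
  classical
  unfold cnt
  have h : (univ.filter fun i : Fin (q * s) => (i : ℕ) < (j : ℕ) + 1 ∧ w i = w j) =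
      insert j (univ.filter fun i : Fin (q * s) => (i : ℕ) < (j : ℕ) ∧ w i = w j) := by
    ext i
    rw [mem_insert, mem_filter, mem_filter]
    by_cases hi : i = j
    · rw [hi]; simp
    · have h1 : (i : ℕ) ≠ (j : ℕ) := fun h => hi (Fin.ext h)
      simp only [hi, mem_univ, true_and, false_or]
      constructor
      · rintro ⟨h, h'⟩; exact ⟨by omega, h'⟩
      · rintro ⟨h, h'⟩; exact ⟨by omega, h'⟩
  rw [h, card_insert_of_notMem]
  rw [mem_filter]
  rintro ⟨_, h, _⟩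
  exact lt_irrefl _ h

theorem cnt_succ_of_ne (w : Fin (q * s) → Fin s) (j : Fin (q * s)) {k : Fin s} (hk : w j ≠ k) :
    cnt w k ((j : ℕ) + 1) = cnt w k j := by
  unfold cnt
  congr 1
  ext i
  rw [mem_filter, mem_filter]
  simp only [mem_univ, true_and]
  constructor
  · rintro ⟨h, h'⟩
    refine ⟨?_, h'⟩
    rcases eq_or_lt_of_le (Nat.lt_succ_iff.1 h) with h3 | h3
    · rw [Fin.ext h3] at h'
      exact absurd h' hk
    · exact h3
  · rintro ⟨h, h'⟩; exact ⟨by omega, h'⟩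

theorem cnt_mono (w : Fin (q * s) → Fin s) (k : Fin s) {i j : ℕ} (h : i ≤ j) :
    cnt w k i ≤ cnt w k j := by
  unfold cnt
  refine card_le_card fun x hx => ?_
  rw [mem_filter] at hx ⊢
  exact ⟨hx.1, by omega, hx.2.2⟩

theorem cnt_last (w : Wd s q) (k : Fin s) : cnt w.1 k (q * s) = q := by
  unfold cnt
  refine Eq.trans ?_ (w.2 k)
  congr 1
  refine filter_congr fun i _ => ?_
  simp

theorem cnt_le (w : Wd s q) (k : Fin s) {j : ℕ} (hj : j ≤ q * s) : cnt w.1 k j ≤ q :=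
  (cnt_mono w.1 k hj).trans (cnt_last w k).le

theorem sum_cnt (w : Fin (q * s) → Fin s) {j : ℕ} (hj : j ≤ q * s) : ∑ k, cnt w k j = j := by
  classical
  induction j with
  | zero => exact sum_eq_zero fun k _ => cnt_zero w k
  | succ j ih =>
    let i : Fin (q * s) := ⟨j, hj⟩
    have h1 := ih (by omega)
    rw [← add_sum_erase univ _ (mem_univ (w i))] at h1 ⊢
    have h2 : cnt w (w i) (j + 1) = cnt w (w i) j + 1 := cnt_succ_self w i
    have h3 : ∑ k ∈ univ.erase (w i), cnt w k (j + 1) = ∑ k ∈ univ.erase (w i), cnt w k j := by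
      refine sum_congr rfl fun k hk => ?_
      exact cnt_succ_of_ne w i (ne_of_mem_erase hk).symm
    rw [h2, h3]
    omega

theorem tw_zero (w : Fin (q * s) → Fin s) (j : ℕ) (k : Fin s) :
    Tw n w j (k, 0) = 2 * (n : ℤ) := by simp [Tw]

theorem tw_pos (w : Fin (q * s) → Fin s) (j : ℕ) (k : Fin s) {c : Fin (q + 1)}
    (hc : (c : ℕ) ≠ 0) (h : (c : ℕ) ≤ cnt w k j) : Tw n w j (k, c) = (-1) ^ (c : ℕ) := by
  simp [Tw, hc, h]

theorem tw_nil (w : Fin (q * s) → Fin s) (j : ℕ) (k : Fin s) {c : Fin (q + 1)}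
    (h : cnt w k j < (c : ℕ)) : Tw n w j (k, c) = 0 := by
  have hc : (c : ℕ) ≠ 0 := by omega
  simp [Tw, hc, h]

/-- one step in the flag of a word -/
theorem tw_step (w : Fin (q * s) → Fin s) (j : Fin (q * s)) {c : Fin (q + 1)}
    (hc : (c : ℕ) = cnt w (w j) j + 1) :
    Tw n w j (w j, c) = 0 ∧ Tw n w ((j : ℕ) + 1) (w j, c) = (-1) ^ (c : ℕ) ∧
      ∀ y, y ≠ (w j, c) → Tw n w ((j : ℕ) + 1) y = Tw n w j y := by
  refine ⟨tw_nil w j _ (by omega), tw_pos w _ _ (by omega) (by rw [cnt_succ_self]; omega), ?_⟩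
  rintro ⟨k, d⟩ hne
  unfold Tw
  simp only
  by_cases hk : w j = k
  · have hd : (d : ℕ) ≠ (c : ℕ) := by
      intro h
      apply hne
      rw [hk, Fin.ext h]
    subst hk
    rw [cnt_succ_self]
    by_cases hd0 : (d : ℕ) = 0
    · rw [if_pos hd0, if_pos hd0]
    · rw [if_neg hd0, if_neg hd0]
      by_cases h1 : (d : ℕ) ≤ cnt w (w j) j
      · rw [if_pos h1, if_pos (by omega)]
      · rw [if_neg h1, if_neg (by omega)]
  · rw [cnt_succ_of_ne w j hk]

theorem isCh_tw (hn : 1 ≤ n) (w : Wd s q) : IsCh n s q fun j => Tw n w.1 (j : ℕ) := by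
  refine ⟨?_, ?_, ?_, ?_⟩
  · rintro ⟨k, c⟩
    simp only [Fin.val_zero]
    by_cases hc : c = 0
    · rw [hc, tw_zero]; exact even_two_mul _
    · have hc' : (c : ℕ) ≠ 0 := fun h => hc (Fin.ext h)
      rw [tw_nil w.1 0 k (by rw [cnt_zero]; omega)]
      exact Even.zero
  · intro j
    simp only [Fin.val_castSucc, Fin.val_succ]
    have h1 : cnt w.1 (w.1 j) ((j : ℕ) + 1) ≤ q := cnt_le w _ (by omega)
    rw [cnt_succ_self] at h1
    obtain ⟨h2, h3, h4⟩ := tw_step (n := n) w.1 j (c := ⟨cnt w.1 (w.1 j) j + 1, by omega⟩) rfl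
    refine ⟨_, ?_, ?_, h4⟩
    · rw [h2]; exact Even.zero
    · rw [h2, h3, sub_zero, abs_pow, abs_neg, abs_one, one_pow]
  · rintro ⟨k, c⟩
    simp only [Fin.val_last]
    unfold Tw
    simp only
    split_ifs
    · rw [abs_of_nonneg (by positivity)]
    · rw [abs_pow, abs_neg, abs_one, one_pow]; omega
    · rw [abs_zero]; positivity
  · intro k
    refine ⟨0, ?_⟩
    simp only [Fin.val_last]
    rw [tw_zero, abs_of_nonneg (by positivity)]

/-- the sign of a block of the flag of a word -/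
theorem ls_tw (hn : 1 ≤ n) (w : Wd s q) {j : ℕ} (hj : j ≤ q * s) (k : Fin s) :
    ls (fun c => Tw n w.1 j (k, c)) = (-1) ^ cnt w.1 k j := by
  have h1 := cnt_le w k hj
  let c : Fin (q + 1) := ⟨cnt w.1 k j, by omega⟩
  have h2 : ∀ d, c < d → Tw n w.1 j (k, d) = 0 := fun d hd => tw_nil w.1 j k (Fin.lt_def.1 hd)
  by_cases hc : (c : ℕ) = 0
  · have hc0 : c = 0 := Fin.ext hc
    have h3 : Tw n w.1 j (k, c) = 2 * (n : ℤ) := by rw [hc0, tw_zero]
    rw [ls_eq (b := fun c => Tw n w.1 j (k, c)) (c := c) (by rw [h3]; omega) h2, h3,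
      Int.sign_eq_one_of_pos (by omega)]
    rw [show cnt w.1 k j = 0 from hc, pow_zero]
  · have h3 : Tw n w.1 j (k, c) = (-1) ^ (c : ℕ) := tw_pos w.1 j k hc le_rfl
    rw [ls_eq (b := fun c => Tw n w.1 j (k, c)) (c := c) (by rw [h3]; exact pow_ne_zero _ (by decide))
      h2, h3]
    change ((-1 : ℤ) ^ cnt w.1 k j).sign = (-1) ^ cnt w.1 k j
    rcases neg_one_pow_eq_or ℤ (cnt w.1 k j) with h | h <;> rw [h] <;> rfl

theorem eps_tw (hn : 1 ≤ n) (w : Wd s q) {j : ℕ} (hj : j ≤ q * s) :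
    eps (Tw n w.1 j) = (-1) ^ j := by
  unfold eps
  rw [prod_congr rfl fun k _ => ls_tw hn w hj k, prod_pow_eq_pow_sum, sum_cnt w.1 hj]

/-- the flag of a word -/
def twCh (hn : 1 ≤ n) (w : Wd s q) : Ch n s q := ⟨fun j => Tw n w.1 (j : ℕ), isCh_tw hn w⟩

theorem isAlt_tw (hn : 1 ≤ n) (w : Wd s q) : IsAlt (twCh hn w) :=
  fun j => eps_tw hn w (Nat.lt_succ_iff.1 j.2)

/-- equivalent words -/
theorem tw_eq (hn : 1 ≤ n) {w w' : Wd s q} {σ : Equiv.Perm (Fin s)} {u : Fin s → ℤ}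
    (h : ∀ j : Fin (q * s + 1), Tw n w'.1 (j : ℕ) = act σ u (Tw n w.1 (j : ℕ))) :
    ∀ j, w.1 j = σ (w'.1 j) := by
  have hu : ∀ k, u k = 1 := by
    intro k
    have h1 := congrFun (h 0) (k, 0)
    rw [act_apply, tw_zero, tw_zero] at h1
    have h2 : (2 * (n : ℤ)) ≠ 0 := by omega
    exact mul_right_cancel₀ h2 (h1.symm.trans (one_mul _).symm)
  have h1 : ∀ (j : ℕ), j ≤ q * s → ∀ k (c : Fin (q + 1)),
      Tw n w'.1 j (k, c) = Tw n w.1 j (σ k, c) := by
    intro j hj k c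
    have := congrFun (h ⟨j, by omega⟩) (k, c)
    rw [act_apply, hu, one_mul] at this
    exact this
  have hle : ∀ (w w' : Wd s q) (k k' : Fin s) (j : ℕ), j ≤ q * s →
      (∀ c : Fin (q + 1), Tw n w'.1 j (k', c) = Tw n w.1 j (k, c)) →
      cnt w.1 k j ≤ cnt w'.1 k' j := by
    intro w w' k k' j hj h2
    by_contra hcon
    push Not at hcon
    have h3 := cnt_le w k hj
    have h4 := h2 ⟨cnt w.1 k j, by omega⟩
    rw [tw_nil w'.1 j k' hcon, tw_pos w.1 j k (by simp only; omega) le_rfl] at h4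
    exact absurd h4.symm (pow_ne_zero _ (by decide))
  have h2 : ∀ (j : ℕ), j ≤ q * s → ∀ k, cnt w.1 (σ k) j = cnt w'.1 k j := fun j hj k =>
    le_antisymm (hle w w' (σ k) k j hj (h1 j hj k)) (hle w' w k (σ k) j hj fun c => (h1 j hj k c).symm)
  intro j
  have h3 := h2 ((j : ℕ) + 1) (by omega) (w'.1 j)
  have h4 := h2 j (by omega) (w'.1 j)
  rw [cnt_succ_self, ← h4] at h3
  by_contra hne
  rw [cnt_succ_of_ne w.1 j hne] at h3
  omega

/-- permuting the letters -/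
def perW (σ : Equiv.Perm (Fin s)) (w : Wd s q) : Wd s q := ⟨fun j => σ (w.1 j), fun k => by
  refine Eq.trans ?_ (w.2 (σ⁻¹ k))
  congr 1
  refine filter_congr fun j _ => ?_
  change σ (w.1 j) = k ↔ w.1 j = σ⁻¹ k
  constructor
  · intro h; rw [← h, inv_app]
  · intro h; rw [h, app_inv]⟩

theorem cnt_perW (σ : Equiv.Perm (Fin s)) (w : Wd s q) (k : Fin s) (j : ℕ) :
    cnt (perW σ w).1 (σ k) j = cnt w.1 k j := by
  unfold cnt
  congr 1
  refine filter_congr fun i _ => ?_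
  rw [show (perW σ w).1 i = σ (w.1 i) from rfl, EmbeddingLike.apply_eq_iff_eq]

theorem rel_perW (hn : 1 ≤ n) (σ : Equiv.Perm (Fin s)) (w : Wd s q) :
    RelS 1 (twCh hn (perW σ w)) (twCh hn w) := by
  refine ⟨σ, fun _ => 1, IsSg.one, by simp, fun j => ?_⟩
  funext ⟨k, c⟩
  rw [act_apply, one_mul]
  change Tw n w.1 j (k, c) = Tw n (perW σ w).1 j (σ k, c)
  unfold Tw
  simp only
  rw [cnt_perW]

end Pool.Agent.SPW
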