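import Pool.Agent.SPW.Defs

/-! Counting words; parity of the number of partitions into blocks of size a power of two. -/

open Finset Nat

namespace Pool.Agent.SPW

instance (s q : ℕ) : Finite (Wd s q) := by unfold Wd; infer_instance

theorem card_fib {s q : ℕ} {w : Fin (q * s) → Fin s}
    (hw : ∀ k, (univ.filter fun j => w j = k).card = q) (k : Fin s) :
    Fintype.card {j // w j = k} = q := by
  rw [Fintype.card_subtype]; exact hw k

theorem card_wd (s q : ℕ) : Nat.card (Wd s q) * (q !) ^ s = (q * s)! := by
  classical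
  let w0 : Fin (q * s) → Fin s := fun j => (finProdFinEquiv.symm j).2
  have hw0 : ∀ k, (univ.filter fun j => w0 j = k).card = q := by
    intro k
    rw [← Fintype.card_subtype]
    have e : {j // w0 j = k} ≃ Fin q :=
      { toFun := fun j => (finProdFinEquiv.symm j.1).1
        invFun := fun i => ⟨finProdFinEquiv (i, k), by
          change (finProdFinEquiv.symm (finProdFinEquiv (i, k))).2 = k
          rw [Equiv.symm_apply_apply]⟩
        left_inv := by
          rintro ⟨j, hj⟩
          apply Subtype.ext
          simp only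
          have h1 : ((finProdFinEquiv.symm j).1, k) = finProdFinEquiv.symm j := by
            rw [← hj]
          rw [h1, Equiv.apply_symm_apply]
        right_inv := by
          intro i
          simp }
    rw [Fintype.card_congr e, Fintype.card_fin]
  have hex : ∀ w : Wd s q, ∃ σ : Equiv.Perm (Fin (q * s)), ∀ j, w0 (σ j) = w.1 j := by
    intro w
    have e : ∀ k, {j // w.1 j = k} ≃ {j // w0 j = k} := fun k =>
      Fintype.equivOfCardEq (by rw [card_fib w.2, card_fib hw0])
    exact ⟨Equiv.ofFiberEquiv e, fun j => Equiv.ofFiberEquiv_map e j⟩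
  choose σ hσ using hex
  let F : (Wd s q) × {g : Equiv.Perm (Fin (q * s)) // w0 ∘ g = w0} → Equiv.Perm (Fin (q * s)) :=
    fun p => p.2.1 * σ p.1
  have hF : ∀ p j, w0 (F p j) = p.1.1 j := by
    rintro ⟨w, g, hg⟩ j
    have h1 := congrFun hg (σ w j)
    simp only [Function.comp_apply] at h1
    simp only [F, Equiv.Perm.coe_mul, Function.comp_apply]
    rw [h1, hσ]
  have hFb : Function.Bijective F := by
    constructor
    · rintro ⟨w, g, hg⟩ ⟨w', g', hg'⟩ h
      have h1 : w = w' := by
        apply Subtype.ext
        funext j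
        have h2 := hF ⟨w, g, hg⟩ j
        have h3 := hF ⟨w', g', hg'⟩ j
        rw [h] at h2
        exact h2.symm.trans h3
      subst h1
      simp only [F] at h
      have h2 : g = g' := mul_right_cancel h
      subst h2
      rfl
    · intro π
      have hw : ∀ k, (univ.filter fun j => w0 (π j) = k).card = q := by
        intro k
        refine Eq.trans ?_ (hw0 k)
        rw [← Fintype.card_subtype, ← Fintype.card_subtype]
        exact Fintype.card_congr (π.subtypeEquiv fun j => Iff.rfl)
      let w : Wd s q := ⟨fun j => w0 (π j), hw⟩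
      refine ⟨⟨w, ⟨π * (σ w)⁻¹, ?_⟩⟩, ?_⟩
      · funext j
        have h1 := hσ w ((σ w)⁻¹ j)
        have h2 : σ w ((σ w)⁻¹ j) = j := (σ w).apply_symm_apply j
        rw [h2] at h1
        simp only [Function.comp_apply, Equiv.Perm.coe_mul]
        exact h1.symm
      · simp only [F]
        rw [inv_mul_cancel_right]
  have h1 := Nat.card_congr (Equiv.ofBijective F hFb)
  rw [Nat.card_prod, Nat.card_eq_fintype_card (α := {g : Equiv.Perm (Fin (q * s)) // w0 ∘ g = w0}),
    DomMulAct.stabilizer_card, Nat.card_eq_fintype_card (α := Equiv.Perm (Fin (q * s))),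
    Fintype.card_perm, Fintype.card_fin] at h1
  rw [← h1]
  congr 1
  rw [prod_congr rfl fun k _ => by rw [card_fib hw0 k], prod_const, Finset.card_univ,
    Fintype.card_fin]

theorem padic_pow (i m : ℕ) :
    padicValNat 2 ((2 ^ i * m)!) = padicValNat 2 (m !) + m * (2 ^ i - 1) := by
  have : Fact (Nat.Prime 2) := ⟨Nat.prime_two⟩
  induction i with
  | zero => simp
  | succ i ih =>
    rw [pow_succ, mul_comm (2 ^ i) 2, mul_assoc, padicValNat_factorial_mul, ih, add_assoc]
    congr 1
    have h1 : 1 ≤ 2 ^ i := Nat.one_le_two_pow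
    obtain ⟨t, ht⟩ := Nat.exists_eq_add_of_le h1
    rw [ht]
    have h2 : 1 + t - 1 = t := by omega
    have h3 : 2 * (1 + t) - 1 = 2 * t + 1 := by omega
    rw [h2, h3]
    ring

theorem odd_of_factorial {i s D : ℕ} (h : D * s ! * ((2 ^ i)!) ^ s = (2 ^ i * s)!) : Odd D := by
  have : Fact (Nat.Prime 2) := ⟨Nat.prime_two⟩
  have hD : D ≠ 0 := by
    rintro rfl
    rw [zero_mul, zero_mul] at h
    exact factorial_ne_zero _ h.symm
  have h1 := congrArg (padicValNat 2) h
  rw [padicValNat.mul (mul_ne_zero hD (factorial_ne_zero _)) (pow_ne_zero _ (factorial_ne_zero _)),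
    padicValNat.mul hD (factorial_ne_zero _), padicValNat.pow,
    padic_pow] at h1
  have h2 := padic_pow i 1
  rw [mul_one, factorial_one, padicValNat_one_right, zero_add, one_mul] at h2
  rw [h2] at h1
  have h3 : padicValNat 2 D = 0 := by omega
  rw [← Nat.not_even_iff_odd]
  intro h4
  have h5 := one_le_padicValNat_of_dvd hD h4.two_dvd
  omega

end Pool.Agent.SPW
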