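import Pool.Agent.SPW.C3
import Pool.Agent.SPW.Cnt

/-! Every alternating flag comes from a word; the number of alternating classes. -/

open Finset Nat

namespace Pool.Agent.SPW

variable {n s q : ℕ}

private theorem last_unique {b : Fin (q + 1) → ℤ} {c c' : Fin (q + 1)} (hc : b c ≠ 0)
    (h : ∀ d, c < d → b d = 0) (hc' : b c' ≠ 0) (h' : ∀ d, c' < d → b d = 0) : c = c' := by
  rcases lt_trichotomy c c' with h1 | h1 | h1
  · exact absurd (h _ h1) hc'
  · exact h1
  · exact absurd (h' _ h1) hc

theorem exists_word (hn : 1 ≤ n) (T : Ch n s q) (hT : IsAlt T) :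
    ∃ w : Wd s q, RelS 1 (twCh hn w) T := by
  classical
  have hstep : ∀ j : Fin (q * s), ∃ k c, T.1 j.castSucc (k, c) = 0 ∧
      (∀ d, c < d → T.1 j.castSucc (k, d) = 0) ∧
      T.1 j.succ (k, c) = - ls (fun d => T.1 j.castSucc (k, d)) ∧
      ∀ y, y ≠ (k, c) → T.1 j.succ y = T.1 j.castSucc y := by
    intro j
    refine eps_change hn (T.2.2.1 j) (T.2.val _) ?_
    rw [hT, hT, Fin.val_succ, Fin.val_castSucc, pow_succ, mul_neg, mul_one]
  choose K C h1 h2 h3 h4 using hstep
  have hne : ∀ j k, ∃ c, T.1 j (k, c) ≠ 0 := fun j k => (T.2.val j).exists_ne hn k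
  choose P hP1 hP2 using fun j k => exists_last (b := fun c => T.1 j (k, c)) (hne j k)
  have hls : ∀ (j : Fin (q * s)) (k : Fin s), ls (fun d => T.1 j.castSucc (k, d)) ≠ 0 := by
    intro j k
    rcases (T.2.val j.castSucc).isSg_ls hn k with h | h
    · simp only at h; rw [h]; decide
    · simp only at h; rw [h]; decide
  have hA1 : ∀ j, P j.succ (K j) = C j := by
    intro j
    refine last_unique (b := fun c => T.1 j.succ (K j, c)) (hP1 _ _) (hP2 _ _) ?_ ?_
    · rw [h3]
      exact neg_ne_zero.2 (hls _ _)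
    · intro d hd
      rw [h4 j (K j, d) fun h => hd.ne' (congrArg Prod.snd h)]
      exact h2 j d hd
  have hA2 : ∀ j, P j.castSucc (K j) < C j := by
    intro j
    by_contra hcon
    rcases eq_or_lt_of_le (not_lt.1 hcon) with h | h
    · apply hP1 j.castSucc (K j)
      rw [← h]; exact h1 j
    · exact hP1 j.castSucc (K j) (h2 j _ h)
  have hA3 : ∀ j k, K j ≠ k → P j.succ k = P j.castSucc k := by
    intro j k hk
    have h5 : ∀ d, T.1 j.succ (k, d) = T.1 j.castSucc (k, d) := fun d =>
      h4 j (k, d) fun h => hk (congrArg Prod.fst h).symm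
    refine last_unique (b := fun c => T.1 j.succ (k, c)) (hP1 _ _) (hP2 _ _) ?_ ?_
    · rw [h5]; exact hP1 _ _
    · intro d hd
      rw [h5]; exact hP2 _ _ d hd
  have hBC : ∀ (k : Fin s) (i j : Fin (q * s + 1)), i ≤ j →
      (P i k : ℕ) + cnt K k (j : ℕ) ≤ (P j k : ℕ) + cnt K k (i : ℕ) := by
    intro k i j
    induction j using Fin.induction with
    | zero =>
      intro hij
      have : i = 0 := Fin.le_zero_iff.1 hij
      rw [this]
    | succ j ih =>
      intro hij
      rcases eq_or_lt_of_le hij with h | h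
      · rw [h]
      · have h5 := ih (Fin.le_castSucc_iff.2 h)
        rw [Fin.val_castSucc] at h5
        rw [Fin.val_succ]
        by_cases hk : K j = k
        · subst hk
          have h6 := Fin.lt_def.1 (hA2 j)
          rw [cnt_succ_self, hA1]
          omega
        · rw [cnt_succ_of_ne K j hk, hA3 j k hk]
          exact h5
  -- the word
  have hcard : ∀ k, (univ.filter fun j => K j = k).card = q := by
    have hle : ∀ k ∈ (univ : Finset (Fin s)), q ≤ (univ.filter fun j => K j = k).card := by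
      intro k _
      refine (card_stp T.2 k).symm.le.trans (card_le_card fun j hj => ?_)
      rw [stp, mem_filter] at hj
      rw [mem_filter]
      refine ⟨mem_univ _, ?_⟩
      by_contra hk
      have h5 : ∀ d, T.1 j.succ (k, d) = T.1 j.castSucc (k, d) := fun d =>
        h4 j (k, d) fun h => hk (congrArg Prod.fst h).symm
      have h6 : oc (T.1 j.succ) k = oc (T.1 j.castSucc) k := by
        unfold oc
        congr 1
        refine filter_congr fun d _ => ?_
        rw [h5]
      have h7 := hj.2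
      omega
    have h5 : ∑ _k : Fin s, q = ∑ k : Fin s, (univ.filter fun j => K j = k).card := by
      rw [← card_eq_sum_card_fiberwise (f := K) (s := univ) (t := univ) fun x _ => mem_univ _,
        Finset.card_univ, Fintype.card_fin, sum_const, Finset.card_univ, Fintype.card_fin,
        smul_eq_mul, mul_comm]
    intro k
    exact ((sum_eq_sum_iff_of_le hle).1 h5 k (mem_univ k)).symm
  let w : Wd s q := ⟨K, hcard⟩
  have hP : ∀ (j : Fin (q * s + 1)) (k : Fin s), (P j k : ℕ) = cnt K k (j : ℕ) := by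
    intro j k
    have h5 := hBC k 0 j (Fin.zero_le _)
    have h6 := hBC k j (Fin.last _) (Fin.le_last _)
    rw [Fin.val_zero, cnt_zero] at h5
    rw [Fin.val_last] at h6
    have h7 : cnt K k (q * s) = q := cnt_last w k
    have h8 := (P (Fin.last _) k).2
    omega
  have hC : ∀ j : Fin (q * s), (C j : ℕ) = cnt K (K j) (j : ℕ) + 1 := by
    intro j
    rw [← hA1 j, hP, Fin.val_succ, cnt_succ_self]
  have hP0 : ∀ k, P 0 k = 0 := by
    intro k
    apply Fin.ext
    rw [hP, Fin.val_zero, cnt_zero]; rfl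
  have h0 : ∀ k (c : Fin (q + 1)), c ≠ 0 → T.1 0 (k, c) = 0 := by
    intro k c hc
    refine hP2 0 k c ?_
    rw [hP0]
    exact Fin.pos_iff_ne_zero.2 hc
  have h00 : ∀ k, |T.1 0 (k, 0)| = 2 * (n : ℤ) := by
    intro k
    obtain ⟨c, hc⟩ := (T.2.val 0).2 k
    by_cases hc0 : c = 0
    · rw [← hc0]; exact hc
    · rw [h0 k c hc0, abs_zero] at hc
      omega
  let u : Fin s → ℤ := fun k => (T.1 0 (k, 0)).sign
  have hu : IsSg u := by
    intro k
    have h5 : T.1 0 (k, 0) ≠ 0 := by
      intro h
      have := h00 k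
      rw [h, abs_zero] at this
      omega
    rcases lt_or_gt_of_ne h5 with h | h
    · exact Or.inr (Int.sign_eq_neg_one_of_neg h)
    · exact Or.inl (Int.sign_eq_one_of_pos h)
  have hu2 : ∀ k, T.1 0 (k, 0) = u k * (2 * (n : ℤ)) := by
    intro k
    rw [← h00 k]
    exact (Int.sign_mul_abs _).symm
  have hG : ∀ j : Fin (q * s + 1), T.1 j = act 1 u (Tw n K (j : ℕ)) := by
    intro j
    induction j using Fin.induction with
    | zero =>
      funext ⟨k, c⟩
      rw [act_apply, Equiv.Perm.one_apply]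
      by_cases hc : c = 0
      · rw [hc, hu2, tw_zero]
      · have hc' : (c : ℕ) ≠ 0 := fun h => hc (Fin.ext h)
        rw [h0 k c hc, tw_nil K _ k (by rw [Fin.val_zero, cnt_zero]; omega), mul_zero]
    | succ j ih =>
      obtain ⟨h5, h6, h7⟩ := tw_step (n := n) K j (hC j)
      rw [Fin.val_castSucc] at ih
      rw [Fin.val_succ]
      funext y
      by_cases hy : y = (K j, C j)
      · subst hy
        rw [h3 j, ih]
        simp only [act_apply, Equiv.Perm.one_apply]
        rw [ls_smul (hu (K j)), ls_tw hn w (by omega), h6, hC]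
        change -(u (K j) * (-1) ^ cnt K (K j) (j : ℕ)) = _
        rw [pow_succ]
        ring
      · rw [h4 j y hy, ih]
        obtain ⟨k, c⟩ := y
        rw [act_apply, act_apply, Equiv.Perm.one_apply, h7 (k, c) hy]
  refine ⟨w, 1, u, hu, ?_, hG⟩
  have h5 := hT 0
  rw [hG 0, eps_act hu] at h5
  have h6 : eps (Tw n K ((0 : Fin (q * s + 1)) : ℕ)) = (-1) ^ 0 :=
    eps_tw hn w (Nat.zero_le (q * s))
  rw [h6] at h5
  simpa using h5

theorem card_altCl (hn : 1 ≤ n) (hq : 1 ≤ q) :
    Nat.card (AltCl n s q) * s ! = Nat.card (Wd s q) := by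
  classical
  have hex : ∀ x : AltCl n s q, ∃ w : Wd s q, (⟦twCh hn w⟧ : Qt n s q) = x.1 := by
    rintro ⟨x, T, hT, hA⟩
    obtain ⟨w, hw⟩ := exists_word hn T hA
    exact ⟨w, (Qt.eq_iff.2 hw).trans hT⟩
  choose W hW using hex
  let F : AltCl n s q × Equiv.Perm (Fin s) → Wd s q := fun p => perW p.2 (W p.1)
  have hF : ∀ p, (⟦twCh hn (F p)⟧ : Qt n s q) = p.1.1 := by
    rintro ⟨x, σ⟩
    exact (Qt.eq_iff.2 (rel_perW hn σ (W x))).trans (hW x)
  have hsurj : ∀ w : Wd s q, ∀ k, ∃ j, w.1 j = k := by
    intro w k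
    have h1 : 0 < (univ.filter fun j => w.1 j = k).card := by
      refine lt_of_lt_of_eq ?_ (w.2 k).symm
      exact hq
    obtain ⟨j, hj⟩ := card_pos.1 h1
    rw [mem_filter] at hj
    exact ⟨j, hj.2⟩
  have hFb : Function.Bijective F := by
    constructor
    · rintro ⟨x, σ⟩ ⟨x', σ'⟩ h
      have h1 : x = x' := by
        apply Subtype.ext
        have h2 := hF (x, σ)
        rw [h] at h2
        exact h2.symm.trans (hF (x', σ'))
      subst h1
      have h2 : σ = σ' := by
        refine Equiv.ext fun k => ?_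
        obtain ⟨j, hj⟩ := hsurj (W x) k
        have h3 := congrFun (congrArg Subtype.val h) j
        change σ ((W x).1 j) = σ' ((W x).1 j) at h3
        rwa [hj] at h3
      rw [h2]
    · intro w
      let x : AltCl n s q := ⟨⟦twCh hn w⟧, twCh hn w, rfl, isAlt_tw hn w⟩
      have h1 : RelS 1 (twCh hn w) (twCh hn (W x)) := Qt.eq_iff.1 (hW x).symm
      obtain ⟨σ, u, hu, hc, h⟩ := h1
      have h2 := tw_eq hn (w := w) (w' := W x) (σ := σ) (u := u) h
      refine ⟨(x, σ), ?_⟩
      apply Subtype.ext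
      funext j
      exact (h2 j).symm
  have h1 := Nat.card_congr (Equiv.ofBijective F hFb)
  rw [Nat.card_prod, Nat.card_eq_fintype_card (α := Equiv.Perm (Fin s)), Fintype.card_perm,
    Fintype.card_fin] at h1
  exact h1

/-- **The number of alternating classes is odd.** -/
theorem odd_altCl (hn : 1 ≤ n) (i s : ℕ) : Odd (Nat.card (AltCl n s (2 ^ i))) := by
  refine odd_of_factorial (i := i) (s := s) ?_
  rw [card_altCl hn Nat.one_le_two_pow]
  exact card_wd s (2 ^ i)

end Pool.Agent.SPW
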