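import Mathlib

/-! Definitions for the parity theorem on products of cube boundaries modulo signs and
permutations of the blocks. -/

open Finset

namespace Pool.Agent.SPW

/-- the truth value of `p` modulo two -/
noncomputable def ind (p : Prop) : ZMod 2 := by
  classical
  exact if p then 1 else 0

theorem ind_pos {p : Prop} (h : p) : ind p = 1 := by simp [ind, h]

theorem ind_neg {p : Prop} (h : ¬ p) : ind p = 0 := by simp [ind, h]

theorem ind_congr {p q : Prop} (h : p ↔ q) : ind p = ind q := by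
  by_cases hq : q
  · rw [ind_pos hq, ind_pos (h.2 hq)]
  · rw [ind_neg hq, ind_neg fun hp => hq (h.1 hp)]

/-- The labels `l` alternate on `S` with first sign `b`: the absolute values are distinct on `S`
and, in the order of increasing absolute values, the signs are `b, -b, b, …`. -/
def Alt {ι : Type*} (b : ℤ) (S : Finset ι) (l : ι → ℤ) : Prop :=
  (∀ x ∈ S, ∀ y ∈ S, |l x| = |l y| → x = y) ∧
    ∀ x ∈ S, (l x).sign = b * (-1) ^ (S.filter fun y => |l y| < |l x|).card

/-- coordinates: `s` blocks of `q + 1` coordinates -/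
abbrev Ix (s q : ℕ) : Type := Fin s × Fin (q + 1)

/-- cells of the cubical grid: an even coordinate is fixed, an odd coordinate `v` stands for the
open interval `(v - 1, v + 1)`. -/
abbrev Cell (s q : ℕ) : Type := Ix s q → ℤ

/-- one even coordinate is opened. -/
def Up {s q : ℕ} (a b : Cell s q) : Prop :=
  ∃ x, Even (a x) ∧ |b x - a x| = 1 ∧ ∀ y, y ≠ x → b y = a y

/-- the cell lies in the product of the boundaries of the cubes `[-2n,2n]^(q+1)`. -/
def Val (n : ℕ) {s q : ℕ} (a : Cell s q) : Prop :=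
  (∀ x, |a x| ≤ 2 * (n : ℤ)) ∧ ∀ k, ∃ c, |a (k, c)| = 2 * (n : ℤ)

/-- complete flags of cells -/
def IsCh (n s q : ℕ) (T : Fin (q * s + 1) → Cell s q) : Prop :=
  (∀ x, Even (T 0 x)) ∧ (∀ j : Fin (q * s), Up (T j.castSucc) (T j.succ)) ∧
    Val n (T (Fin.last (q * s)))

/-- vectors of signs -/
def IsSg {s : ℕ} (u : Fin s → ℤ) : Prop := ∀ k, u k = 1 ∨ u k = -1

/-- action of the permutations of the blocks and of the signs -/
def act {s q : ℕ} (σ : Equiv.Perm (Fin s)) (u : Fin s → ℤ) (a : Cell s q) : Cell s q :=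
  fun x => u x.1 * a (σ x.1, x.2)

open Classical in
/-- sign of the last non-zero coordinate -/
noncomputable def ls {q : ℕ} (b : Fin (q + 1) → ℤ) : ℤ :=
  if h : ∃ c, b c ≠ 0 ∧ ∀ d, c < d → b d = 0 then (b h.choose).sign else 0

/-- product of the signs of the blocks -/
noncomputable def eps {s q : ℕ} (a : Cell s q) : ℤ := ∏ k, ls fun c => a (k, c)

/-- the type of complete flags -/
def Ch (n s q : ℕ) : Type := {T : Fin (q * s + 1) → Cell s q // IsCh n s q T}

/-- two flags differ by a permutation of the blocks and signs of product one. -/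
def Rel {n s q : ℕ} (T T' : Ch n s q) : Prop :=
  ∃ σ : Equiv.Perm (Fin s), ∃ u : Fin s → ℤ, IsSg u ∧ ∏ k, u k = 1 ∧ ∀ j, T'.1 j = act σ u (T.1 j)

/-- alternating flags -/
def IsAlt {n s q : ℕ} (T : Ch n s q) : Prop := ∀ j : Fin (q * s + 1), eps (T.1 j) = (-1) ^ (j : ℕ)

/-- words in which every letter occurs `q` times -/
def Wd (s q : ℕ) : Type := {w : Fin (q * s) → Fin s // ∀ k, (univ.filter fun j => w j = k).card = q}

/-- number of occurrences of `k` among the first `j` letters -/
def cnt {s q : ℕ} (w : Fin (q * s) → Fin s) (k : Fin s) (j : ℕ) : ℕ :=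
  (univ.filter fun i : Fin (q * s) => (i : ℕ) < j ∧ w i = k).card

/-- the alternating flag of a word -/
def Tw (n : ℕ) {s q : ℕ} (w : Fin (q * s) → Fin s) (j : ℕ) : Cell s q := fun x =>
  if (x.2 : ℕ) = 0 then 2 * (n : ℤ) else if (x.2 : ℕ) ≤ cnt w x.1 j then (-1) ^ (x.2 : ℕ) else 0

end Pool.Agent.SPW
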