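import Pool.Agent.SPW.Defs

/-! Basic properties of the complete flags. -/

open Finset

namespace Pool.Agent.SPW

variable {n s q : ℕ} {T : Fin (q * s + 1) → Cell s q}

theorem Up.step {a b : Cell s q} (h : Up a b) (x : Ix s q) :
    b x = a x ∨ (Even (a x) ∧ |b x - a x| = 1) := by
  obtain ⟨y, h1, h2, h3⟩ := h
  by_cases hx : x = y
  · rw [hx]; exact Or.inr ⟨h1, h2⟩
  · exact Or.inl (h3 x hx)

theorem odd_of_abs_sub {a b : ℤ} (ha : Even a) (h : |b - a| = 1) : Odd b := by
  obtain ⟨c, hc⟩ := ha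
  rcases abs_eq (zero_le_one' ℤ) |>.1 h with h | h
  · exact ⟨c, by omega⟩
  · exact ⟨c - 1, by omega⟩

theorem even_of_abs_sub {a b : ℤ} (ha : Odd a) (h : |b - a| = 1) : Even b := by
  obtain ⟨c, hc⟩ := ha
  rcases abs_eq (zero_le_one' ℤ) |>.1 h with h | h
  · exact ⟨c + 1, by omega⟩
  · exact ⟨c, by omega⟩

theorem IsCh.step (hT : IsCh n s q T) {i j : Fin (q * s + 1)} (hij : i ≤ j) (x : Ix s q) :
    T j x = T i x ∨ (Even (T i x) ∧ |T j x - T i x| = 1) := by
  induction j using Fin.induction with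
  | zero =>
    have : i = 0 := Fin.le_zero_iff.1 hij
    rw [this]; exact Or.inl rfl
  | succ j ih =>
    rcases eq_or_lt_of_le hij with h | h
    · rw [h]; exact Or.inl rfl
    · have h1 : i ≤ j.castSucc := Fin.le_castSucc_iff.2 h
      rcases (hT.2.1 j).step x with h2 | ⟨h2, h3⟩
      · rw [h2]; exact ih h1
      · rcases ih h1 with h4 | ⟨h4, h5⟩
        · rw [← h4]; exact Or.inr ⟨h2, h3⟩
        · exact absurd h2 (Int.not_even_iff_odd.2 (odd_of_abs_sub h4 h5))

theorem IsCh.eq_of_even (hT : IsCh n s q T) {i j : Fin (q * s + 1)} (hij : i ≤ j) {x : Ix s q}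
    (h : Even (T j x)) : T i x = T j x := by
  rcases hT.step hij x with h1 | ⟨h1, h2⟩
  · exact h1.symm
  · exact absurd h (Int.not_even_iff_odd.2 (odd_of_abs_sub h1 h2))

theorem IsCh.eq_of_odd (hT : IsCh n s q T) {i j : Fin (q * s + 1)} (hij : i ≤ j) {x : Ix s q}
    (h : Odd (T i x)) : T j x = T i x := by
  rcases hT.step hij x with h1 | ⟨h1, _⟩
  · exact h1
  · exact absurd h1 (Int.not_even_iff_odd.2 h)

theorem IsCh.near (hT : IsCh n s q T) (i j : Fin (q * s + 1)) (x : Ix s q) :
    |T i x - T j x| ≤ 1 := by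
  rcases le_total i j with h | h
  · rcases hT.step h x with h1 | ⟨_, h1⟩
    · rw [h1, sub_self, abs_zero]; exact zero_le_one
    · rw [abs_sub_comm]; exact h1.le
  · rcases hT.step h x with h1 | ⟨_, h1⟩
    · rw [h1, sub_self, abs_zero]; exact zero_le_one
    · exact h1.le

theorem IsCh.val (hT : IsCh n s q T) (j : Fin (q * s + 1)) : Val n (T j) := by
  obtain ⟨h1, h2⟩ := hT.2.2
  have hj : j ≤ Fin.last (q * s) := Fin.le_last j
  refine ⟨fun x => ?_, fun k => ?_⟩
  · rcases hT.step hj x with h3 | ⟨h3, h4⟩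
    · rw [← h3]; exact h1 x
    · have h5 := odd_of_abs_sub h3 h4
      obtain ⟨c, hc⟩ := h5
      obtain ⟨d, hd⟩ := h3
      have h6 := abs_le.1 (h1 x)
      have h7 := abs_le.1 h4.le
      rw [abs_le]
      omega
  · obtain ⟨c, hc⟩ := h2 k
    refine ⟨c, ?_⟩
    have h3 : Even (T (Fin.last (q * s)) (k, c)) := by
      rw [← even_abs, hc]; exact even_two_mul _
    rw [hT.eq_of_even hj h3]; exact hc

theorem Up.card_odd {a b : Cell s q} (h : Up a b) :
    (univ.filter fun x => Odd (b x)).card = (univ.filter fun x => Odd (a x)).card + 1 := by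
  classical
  obtain ⟨y, h1, h2, h3⟩ := h
  have h4 : (univ.filter fun x => Odd (b x)) = insert y (univ.filter fun x => Odd (a x)) := by
    ext x
    rw [mem_insert, mem_filter, mem_filter]
    by_cases hx : x = y
    · rw [hx]; simp [odd_of_abs_sub h1 h2]
    · rw [h3 x hx]; simp [hx]
  rw [h4, card_insert_of_notMem]
  rw [mem_filter]
  rintro ⟨_, h5⟩
  exact absurd h1 (Int.not_even_iff_odd.2 h5)

theorem IsCh.card_odd (hT : IsCh n s q T) (j : Fin (q * s + 1)) :
    (univ.filter fun x => Odd (T j x)).card = (j : ℕ) := by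
  induction j using Fin.induction with
  | zero =>
    rw [filter_false_of_mem, card_empty]; · rfl
    intro x _
    exact Int.not_odd_iff_even.2 (hT.1 x)
  | succ j ih => rw [(hT.2.1 j).card_odd, ih]; simp

/-- number of odd coordinates in a block -/
def oc {s q : ℕ} (a : Cell s q) (k : Fin s) : ℕ := (univ.filter fun c => Odd (a (k, c))).card

theorem sum_oc (a : Cell s q) : ∑ k, oc a k = (univ.filter fun x => Odd (a x)).card := by
  classical
  unfold oc
  rw [card_eq_sum_ones, sum_filter, ← univ_product_univ, sum_product]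
  refine sum_congr rfl fun k _ => ?_
  rw [card_eq_sum_ones, sum_filter]

theorem Val.exists_even {a : Cell s q} (h : Val n a) (k : Fin s) :
    ∃ c, |a (k, c)| = 2 * (n : ℤ) ∧ Even (a (k, c)) := by
  obtain ⟨c, hc⟩ := h.2 k
  exact ⟨c, hc, by rw [← even_abs, hc]; exact even_two_mul _⟩

theorem Val.oc_le {a : Cell s q} (h : Val n a) (k : Fin s) : oc a k ≤ q := by
  classical
  obtain ⟨c, _, hc⟩ := h.exists_even k
  have h1 : (univ.filter fun c => Odd (a (k, c))) ⊆ univ.erase c := by
    intro d hd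
    rw [mem_filter] at hd
    rw [mem_erase]
    refine ⟨?_, mem_univ _⟩
    rintro rfl
    exact absurd hc (Int.not_even_iff_odd.2 hd.2)
  have h2 := card_le_card h1
  rw [card_erase_of_mem (mem_univ _), card_univ, Fintype.card_fin] at h2
  exact h2

/-- at the top every block has `q` odd coordinates. -/
theorem IsCh.oc_top (hT : IsCh n s q T) (k : Fin s) : oc (T (Fin.last (q * s))) k = q := by
  have h1 := sum_oc (T (Fin.last (q * s)))
  rw [hT.card_odd, Fin.val_last] at h1
  have h2 : ∀ k ∈ (univ : Finset (Fin s)), oc (T (Fin.last (q * s))) k ≤ q :=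
    fun k _ => hT.2.2.oc_le k
  have h3 : ∑ k : Fin s, oc (T (Fin.last (q * s))) k = ∑ _k : Fin s, q := by
    rw [h1, sum_const, card_univ, Fintype.card_fin, smul_eq_mul, mul_comm]
  exact (sum_eq_sum_iff_of_le h2).1 h3 k (mem_univ k)

/-- at the top every block has exactly one even coordinate, of absolute value `2 n`. -/
theorem IsCh.top (hT : IsCh n s q T) (k : Fin s) : ∃ c, |T (Fin.last (q * s)) (k, c)| = 2 * (n : ℤ) ∧
    ∀ d, d ≠ c → Odd (T (Fin.last (q * s)) (k, d)) := by
  classical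
  obtain ⟨c, hc, hc2⟩ := hT.2.2.exists_even k
  refine ⟨c, hc, ?_⟩
  have h1 : (univ.filter fun c => Odd (T (Fin.last (q * s)) (k, c))) = univ.erase c := by
    refine eq_of_subset_of_card_le ?_ ?_
    · intro d hd
      rw [mem_filter] at hd
      rw [mem_erase]
      refine ⟨?_, mem_univ _⟩
      rintro rfl
      exact absurd hc2 (Int.not_even_iff_odd.2 hd.2)
    · rw [card_erase_of_mem (mem_univ _), card_univ, Fintype.card_fin]
      exact (hT.oc_top k).ge
  intro d hd
  have h2 : d ∈ univ.erase c := mem_erase.2 ⟨hd, mem_univ _⟩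
  rw [← h1, mem_filter] at h2
  exact h2.2

theorem finite_ch (n s q : ℕ) : Finite (Ch n s q) := by
  let S : Set ℤ := Set.Icc (-(2 * (n : ℤ))) (2 * (n : ℤ))
  have hS : Finite S := (Set.finite_Icc _ _).to_subtype
  let f : Ch n s q → (Fin (q * s + 1) → Ix s q → S) := fun T j x =>
    ⟨T.1 j x, abs_le.1 ((T.2.val j).1 x)⟩
  refine Finite.of_injective f fun T T' h => Subtype.ext ?_
  funext j x
  have := congrFun (congrFun h j) x
  exact congrArg Subtype.val this

end Pool.Agent.SPW
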