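import Pool.Agent.SPW.G1

/-! Every flag has exactly one neighbour at each position. -/

open Finset

namespace Pool.Agent.SPW

variable {n s q : ℕ} {T : Fin (q * s + 1) → Cell s q}

theorem bot_swap {m d : Cell s q} (hm : ∀ x, Even (m x)) (hup : Up m d) :
    ∃ b : Cell s q, b ≠ m ∧ (∀ x, Even (b x)) ∧ Up b d ∧
      ∀ c, c ≠ m → (∀ x, Even (c x)) → Up c d → c = b := by
  classical
  obtain ⟨x, h1, h2, h3⟩ := hup
  have h4 := odd_of_abs_sub h1 h2
  refine ⟨Function.update m x (2 * d x - m x), ?_, ?_, ⟨x, ?_, ?_, ?_⟩, ?_⟩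
  · intro h
    have h5 := congrFun h x
    rw [Function.update_self] at h5
    have h6 : d x - m x = 0 := by omega
    rw [h6] at h2
    simp at h2
  · intro y
    by_cases hy : y = x
    · rw [hy, Function.update_self]
      exact (even_two_mul _).sub h1
    · rw [Function.update_of_ne hy]; exact hm y
  · rw [Function.update_self]
    exact (even_two_mul _).sub h1
  · rw [Function.update_self]
    rw [show d x - (2 * d x - m x) = -(d x - m x) by ring, abs_neg]; exact h2
  · intro y hy
    rw [Function.update_of_ne hy]; exact h3 y hy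
  · intro c hc hce ⟨y, _, hy2, hy3⟩
    have hxy : y = x := by
      by_contra hne
      have h5 := hy3 x (Ne.symm hne)
      rw [h5] at h4
      exact absurd (hce x) (Int.not_even_iff_odd.2 h4)
    subst hxy
    have h6 : ∀ z, z ≠ y → c z = m z := fun z hz => by rw [← h3 z hz, ← hy3 z hz]
    have h7 : c y ≠ m y := by
      intro h
      apply hc
      funext z
      by_cases hz : z = y
      · rw [hz]; exact h
      · exact h6 z hz
    funext z
    by_cases hz : z = y
    · rw [hz, Function.update_self]
      rcases (abs_eq (zero_le_one' ℤ)).1 h2 with h | h <;>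
        rcases (abs_eq (zero_le_one' ℤ)).1 hy2 with h' | h' <;> omega
    · rw [Function.update_of_ne hz]; exact h6 z hz

theorem mid_swap {a m d : Cell s q} (h1 : Up a m) (h2 : Up m d) :
    ∃ b : Cell s q, b ≠ m ∧ Up a b ∧ Up b d ∧ ∀ c, c ≠ m → Up a c → Up c d → c = b := by
  classical
  obtain ⟨x, hx1, hx2, hx3⟩ := h1
  obtain ⟨y, hy1, hy2, hy3⟩ := h2
  have hxo := odd_of_abs_sub hx1 hx2
  have hxy : y ≠ x := by
    rintro rfl
    exact absurd hy1 (Int.not_even_iff_odd.2 hxo)
  have hay : m y = a y := hx3 y hxy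
  have hdx : d x = m x := hy3 x hxy.symm
  have hmx : m x ≠ a x := by
    intro h
    rw [h, sub_self] at hx2
    simp at hx2
  have hdy : d y ≠ m y := by
    intro h
    rw [h, sub_self] at hy2
    simp at hy2
  refine ⟨Function.update a y (d y), ?_, ⟨y, ?_, ?_, ?_⟩, ⟨x, ?_, ?_, ?_⟩, ?_⟩
  · intro h
    have h5 := congrFun h x
    rw [Function.update_of_ne hxy.symm] at h5
    exact hmx h5.symm
  · rw [← hay]; exact hy1
  · rw [Function.update_self, ← hay]; exact hy2
  · intro z hz
    rw [Function.update_of_ne hz]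
  · rw [Function.update_of_ne hxy.symm]; exact hx1
  · rw [Function.update_of_ne hxy.symm, hdx]; exact hx2
  · intro z hz
    by_cases hzy : z = y
    · rw [hzy, Function.update_self]
    · rw [Function.update_of_ne hzy, hy3 z hzy, hx3 z hz]
  · rintro c hc ⟨x', hx1', hx2', hx3'⟩ ⟨y', hy1', hy2', hy3'⟩
    have hxo' := odd_of_abs_sub hx1' hx2'
    have hxy' : y' ≠ x' := by
      rintro rfl
      exact absurd hy1' (Int.not_even_iff_odd.2 hxo')
    -- `x` is `x'` or `y'`
    have h6 : x = x' ∨ x = y' := by
      by_contra hne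
      push Not at hne
      have h7 := hx3' x hne.1
      have h8 := hy3' x hne.2
      rw [h7, hdx] at h8
      exact hmx h8
    rcases h6 with h6 | h6
    · exfalso
      apply hc
      subst h6
      funext z
      by_cases hz : z = x
      · rw [hz, ← hy3' x hxy'.symm, hdx]
      · rw [hx3' z hz, hx3 z hz]
    · have h7 : y = x' := by
        by_contra hne
        have h8 := hx3' y hne
        have h9 : y ≠ y' := by rw [← h6]; exact hxy
        have h10 := hy3' y h9
        rw [h8, ← hay] at h10
        exact hdy h10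
      subst h7
      funext z
      by_cases hz : z = y
      · rw [hz, Function.update_self, hy3' y hxy'.symm]
      · rw [Function.update_of_ne hz]; exact hx3' z hz

private theorem update_up {a : Cell s q} {x : Ix s q} {v : ℤ} (h : Even (a x))
    (hv : |v - a x| = 1) : Up a (Function.update a x v) := by
  classical
  refine ⟨x, h, by rw [Function.update_self]; exact hv, fun y hy => ?_⟩
  rw [Function.update_of_ne hy]

theorem top_swap (hn : 1 ≤ n) {a m : Cell s q} (hup : Up a m) (hva : Val n a) (hvm : Val n m)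
    (htop : ∀ k, ∃ c, |m (k, c)| = 2 * (n : ℤ) ∧ ∀ d, d ≠ c → Odd (m (k, d))) :
    ∃ b : Cell s q, b ≠ m ∧ Up a b ∧ Val n b ∧ ∀ c, c ≠ m → Up a c → Val n c → c = b := by
  classical
  obtain ⟨⟨k₀, cx⟩, hx1, hx2, hx3⟩ := hup
  obtain ⟨c₀, hc1, hc2⟩ := htop k₀
  have hmo := odd_of_abs_sub hx1 hx2
  have hme : Even (m (k₀, c₀)) := by rw [← even_abs, hc1]; exact even_two_mul _
  have hne : (k₀, c₀) ≠ (k₀, cx) := by
    intro h
    rw [h] at hme
    exact absurd hme (Int.not_even_iff_odd.2 hmo)
  have haz : a (k₀, c₀) = m (k₀, c₀) := (hx3 _ hne).symm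
  -- even coordinates of `a`
  have hev : ∀ y : Ix s q, y ≠ (k₀, cx) → y ≠ (k₀, c₀) → y.1 = k₀ → Odd (a y) := by
    rintro ⟨k, c⟩ h1 h2 h3
    simp only at h3
    subst h3
    rw [← hx3 _ h1]
    exact hc2 c fun h => h2 (by rw [h])
  -- a valid cell above `a` comes from one of two coordinates
  have hcand : ∀ c : Cell s q, Val n c → ∀ y, Even (a y) → |c y - a y| = 1 →
      (∀ z, z ≠ y → c z = a z) → y = (k₀, cx) ∨ y = (k₀, c₀) := by
    rintro c hvc ⟨k, d⟩ hy1 hy2 hy3
    by_contra hcon
    push Not at hcon
    by_cases hk : k = k₀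
    · exact absurd hy1 (Int.not_even_iff_odd.2 (hev _ hcon.1 hcon.2 hk))
    · -- another block: no coordinate of absolute value `2n` remains
      obtain ⟨e, he1, he2⟩ := hvc.exists_even k
      obtain ⟨g, hg1, hg2⟩ := htop k
      have hyo := odd_of_abs_sub hy1 hy2
      have hed : e ≠ d := by
        rintro rfl
        exact absurd he2 (Int.not_even_iff_odd.2 hyo)
      have hak : ∀ t, a (k, t) = m (k, t) := by
        intro t
        refine (hx3 _ fun h => hk ?_).symm
        exact congrArg Prod.fst h
      have h1 : c (k, e) = a (k, e) := hy3 _ fun h => hed (congrArg Prod.snd h)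
      have hdg : d = g := by
        by_contra h
        have := hg2 d h
        rw [← hak] at this
        exact absurd hy1 (Int.not_even_iff_odd.2 this)
      have h2 := hg2 e (by rw [← hdg]; exact hed)
      rw [← hak, ← h1] at h2
      exact absurd he2 (Int.not_even_iff_odd.2 h2)
  have hvx := hva.1 (k₀, cx)
  by_cases hv : |a (k₀, cx)| = 2 * (n : ℤ)
  · -- both even coordinates are extreme
    have hz : |a (k₀, c₀)| = 2 * (n : ℤ) := by rw [haz]; exact hc1
    have hsg : ∃ v : ℤ, |v - a (k₀, c₀)| = 1 ∧ |v| ≤ 2 * (n : ℤ) ∧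
        ∀ w : ℤ, |w - a (k₀, c₀)| = 1 → |w| ≤ 2 * (n : ℤ) → w = v := by
      rcases (abs_eq (by positivity)).1 hz with h | h
      · refine ⟨a (k₀, c₀) - 1, by simp, ?_, ?_⟩
        · rw [h, abs_le]; constructor <;> omega
        · intro w h1 h2
          rw [abs_le] at h2
          rcases (abs_eq (zero_le_one' ℤ)).1 h1 with h3 | h3 <;> omega
      · refine ⟨a (k₀, c₀) + 1, by simp, ?_, ?_⟩
        · rw [h, abs_le]; constructor <;> omega
        · intro w h1 h2
          rw [abs_le] at h2
          rcases (abs_eq (zero_le_one' ℤ)).1 h1 with h3 | h3 <;> omega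
    obtain ⟨v, hv1, hv2, hv3⟩ := hsg
    refine ⟨Function.update a (k₀, c₀) v, ?_, update_up (by rw [haz]; exact hme) hv1, ?_, ?_⟩
    · intro h
      have h5 := congrFun h (k₀, cx)
      rw [Function.update_of_ne hne.symm] at h5
      rw [← h5, sub_self] at hx2
      simp at hx2
    · refine ⟨fun y => ?_, fun k => ?_⟩
      · by_cases hy : y = (k₀, c₀)
        · rw [hy, Function.update_self]; exact hv2
        · rw [Function.update_of_ne hy]; exact hva.1 y
      · by_cases hk : k = k₀
        · refine ⟨cx, ?_⟩
          rw [hk, Function.update_of_ne hne.symm]; exact hv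
        · obtain ⟨c, hc⟩ := hva.2 k
          refine ⟨c, ?_⟩
          rw [Function.update_of_ne fun h => hk (congrArg Prod.fst h)]; exact hc
    · rintro c hcm ⟨y, hy1, hy2, hy3⟩ hvc
      rcases hcand c hvc y hy1 hy2 hy3 with rfl | rfl
      · exfalso
        apply hcm
        have h1 := hvc.1 (k₀, cx)
        have h2 := hvm.1 (k₀, cx)
        funext z
        by_cases hzz : z = (k₀, cx)
        · rw [hzz]
          rw [abs_le] at h1 h2
          rcases (abs_eq (by positivity)).1 hv with h | h <;>
            rcases (abs_eq (zero_le_one' ℤ)).1 hy2 with h3 | h3 <;>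
              rcases (abs_eq (zero_le_one' ℤ)).1 hx2 with h4 | h4 <;> omega
        · rw [hy3 z hzz, hx3 z hzz]
      · funext z
        by_cases hzz : z = (k₀, c₀)
        · rw [hzz, Function.update_self]
          exact hv3 _ hy2 (hvc.1 _)
        · rw [Function.update_of_ne hzz]; exact hy3 z hzz
  · -- the opened coordinate can move in both directions
    have hlt : |a (k₀, cx)| ≤ 2 * (n : ℤ) - 2 := by
      have h1 : |a (k₀, cx)| < 2 * (n : ℤ) := lt_of_le_of_ne hvx hv
      have h2 : Even |a (k₀, cx)| := even_abs.2 hx1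
      obtain ⟨t, ht⟩ := h2
      omega
    refine ⟨Function.update a (k₀, cx) (2 * a (k₀, cx) - m (k₀, cx)), ?_, update_up hx1 ?_, ?_, ?_⟩
    · intro h
      have h5 := congrFun h (k₀, cx)
      rw [Function.update_self] at h5
      have h6 : m (k₀, cx) - a (k₀, cx) = 0 := by omega
      rw [h6] at hx2
      simp at hx2
    · rw [show 2 * a (k₀, cx) - m (k₀, cx) - a (k₀, cx) = -(m (k₀, cx) - a (k₀, cx)) by ring,
        abs_neg]
      exact hx2
    · refine ⟨fun y => ?_, fun k => ?_⟩
      · by_cases hy : y = (k₀, cx)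
        · rw [hy, Function.update_self]
          rw [abs_le] at hlt ⊢
          rcases (abs_eq (zero_le_one' ℤ)).1 hx2 with h3 | h3 <;> constructor <;> omega
        · rw [Function.update_of_ne hy]; exact hva.1 y
      · by_cases hk : k = k₀
        · refine ⟨c₀, ?_⟩
          rw [hk, Function.update_of_ne hne, haz]; exact hc1
        · obtain ⟨c, hc⟩ := hva.2 k
          refine ⟨c, ?_⟩
          rw [Function.update_of_ne fun h => hk (congrArg Prod.fst h)]; exact hc
    · rintro c hcm ⟨y, hy1, hy2, hy3⟩ hvc
      rcases hcand c hvc y hy1 hy2 hy3 with rfl | rfl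
      · have h7 : c (k₀, cx) ≠ m (k₀, cx) := by
          intro h
          apply hcm
          funext z
          by_cases hz : z = (k₀, cx)
          · rw [hz]; exact h
          · rw [hy3 z hz, hx3 z hz]
        funext z
        by_cases hz : z = (k₀, cx)
        · rw [hz, Function.update_self]
          rcases (abs_eq (zero_le_one' ℤ)).1 hx2 with h3 | h3 <;>
            rcases (abs_eq (zero_le_one' ℤ)).1 hy2 with h4 | h4 <;> omega
        · rw [Function.update_of_ne hz]; exact hy3 z hz
      · exfalso
        obtain ⟨e, he1, he2⟩ := hvc.exists_even k₀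
        have hyo := odd_of_abs_sub hy1 hy2
        have he : e ≠ c₀ := by
          rintro rfl
          exact absurd he2 (Int.not_even_iff_odd.2 hyo)
        have h1 : c (k₀, e) = a (k₀, e) := hy3 _ fun h => he (congrArg Prod.snd h)
        by_cases hecx : e = cx
        · rw [h1, hecx] at he1
          exact hv he1
        · have h2 := hev (k₀, e) (fun h => hecx (congrArg Prod.snd h))
            (fun h => he (congrArg Prod.snd h)) rfl
          rw [← h1] at h2
          exact absurd he2 (Int.not_even_iff_odd.2 h2)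

theorem isCh_update_iff (hT : IsCh n s q T) (i : Fin (q * s + 1)) (b : Cell s q) :
    IsCh n s q (Function.update T i b) ↔ (i = 0 → ∀ x, Even (b x)) ∧
      (∀ j : Fin (q * s), j.castSucc = i → Up b (T j.succ)) ∧
      (∀ j : Fin (q * s), j.succ = i → Up (T j.castSucc) b) ∧
      (i = Fin.last (q * s) → Val n b) := by
  classical
  constructor
  · rintro ⟨h1, h2, h3⟩
    refine ⟨?_, ?_, ?_, ?_⟩
    · rintro rfl
      rw [Function.update_self] at h1
      exact h1
    · rintro j rfl
      have := h2 j
      rw [Function.update_self, Function.update_of_ne (Fin.castSucc_lt_succ).ne'] at this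
      exact this
    · rintro j rfl
      have := h2 j
      rw [Function.update_self, Function.update_of_ne (Fin.castSucc_lt_succ).ne] at this
      exact this
    · rintro rfl
      rw [Function.update_self] at h3
      exact h3
  · rintro ⟨h1, h2, h3, h4⟩
    refine ⟨?_, ?_, ?_⟩
    · by_cases hi : i = 0
      · rw [hi, Function.update_self]; exact h1 hi
      · rw [Function.update_of_ne (Ne.symm hi)]; exact hT.1
    · intro j
      by_cases hj : j.castSucc = i
      · subst hj
        rw [Function.update_self, Function.update_of_ne (Fin.castSucc_lt_succ).ne']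
        exact h2 j rfl
      · by_cases hj' : j.succ = i
        · subst hj'
          rw [Function.update_self, Function.update_of_ne (Fin.castSucc_lt_succ).ne]
          exact h3 j rfl
        · rw [Function.update_of_ne hj, Function.update_of_ne hj']
          exact hT.2.1 j
    · by_cases hi : i = Fin.last (q * s)
      · rw [hi, Function.update_self]; exact h4 hi
      · rw [Function.update_of_ne (Ne.symm hi)]; exact hT.2.2

/-- **Exactly one neighbour at each position.** -/
theorem exists_swap (hn : 1 ≤ n) (hN : 0 < q * s) (hT : IsCh n s q T) (i : Fin (q * s + 1)) :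
    ∃ b, b ≠ T i ∧ IsCh n s q (Function.update T i b) ∧
      ∀ c, c ≠ T i → IsCh n s q (Function.update T i c) → c = b := by
  have hcs : ∀ j j' : Fin (q * s), j.castSucc = j'.castSucc → j = j' := fun j j' h =>
    Fin.castSucc_injective _ h
  have hsc : ∀ j j' : Fin (q * s), j.succ = j'.succ → j = j' := fun j j' h =>
    Fin.succ_injective _ h
  simp only [isCh_update_iff hT]
  by_cases hi0 : i = 0
  · let j0 : Fin (q * s) := ⟨0, hN⟩
    have hj0 : j0.castSucc = i := by rw [hi0]; rfl
    have hup : Up (T i) (T j0.succ) := by rw [← hj0]; exact hT.2.1 j0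
    have hev : ∀ x, Even (T i x) := by rw [hi0]; exact hT.1
    have hns : ∀ j : Fin (q * s), j.succ ≠ i := by
      intro j; rw [hi0]; exact Fin.succ_ne_zero j
    have hnl : i ≠ Fin.last (q * s) := by
      rw [hi0, Ne, Fin.ext_iff]; simp only [Fin.val_zero, Fin.val_last]; omega
    obtain ⟨b, h1, h2, h3, h4⟩ := bot_swap hev hup
    refine ⟨b, h1, ⟨fun _ => h2, ?_, fun j hj => absurd hj (hns j), fun h => absurd h hnl⟩, ?_⟩
    · intro j hj
      rw [hcs j j0 (hj.trans hj0.symm)]; exact h3
    · rintro c hc ⟨hc1, hc2, _, _⟩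
      exact h4 c hc (hc1 hi0) (hc2 j0 hj0)
  · obtain ⟨j, hj⟩ := Fin.exists_succ_eq.2 hi0
    have hupj : Up (T j.castSucc) (T i) := by rw [← hj]; exact hT.2.1 j
    by_cases hil : i = Fin.last (q * s)
    · have hnc : ∀ j' : Fin (q * s), j'.castSucc ≠ i := by
        intro j'; rw [hil]; exact (Fin.castSucc_lt_last j').ne
      obtain ⟨b, h1, h2, h3, h4⟩ := top_swap hn hupj (hT.val _) (hT.val _) (by
        rw [hil]; exact hT.top)
      refine ⟨b, h1, ⟨fun h => absurd h hi0, fun j' hj' => absurd hj' (hnc j'), ?_,
        fun _ => h3⟩, ?_⟩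
      · intro j' hj'
        rw [hsc j' j (hj'.trans hj.symm)]; exact h2
      · rintro c hc ⟨_, _, hc3, hc4⟩
        exact h4 c hc (hc3 j hj) (hc4 hil)
    · obtain ⟨j', hj'⟩ := Fin.exists_castSucc_eq.2 hil
      have hupj' : Up (T i) (T j'.succ) := by rw [← hj']; exact hT.2.1 j'
      obtain ⟨b, h1, h2, h3, h4⟩ := mid_swap hupj hupj'
      refine ⟨b, h1, ⟨fun h => absurd h hi0, ?_, ?_, fun h => absurd h hil⟩, ?_⟩
      · intro t ht
        rw [hcs t j' (ht.trans hj'.symm)]; exact h3
      · intro t ht
        rw [hsc t j (ht.trans hj.symm)]; exact h2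
      · rintro c hc ⟨_, hc2, hc3, _⟩
        exact h4 c hc (hc3 j hj) (hc2 j' hj')

end Pool.Agent.SPW
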