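import Pool.Agent.SPW.G1

/-! The action of signs and permutations on flags; it is free on facets. -/

open Finset

namespace Pool.Agent.SPW

variable {n s q : ℕ} {T : Fin (q * s + 1) → Cell s q} {σ ρ : Equiv.Perm (Fin s)}
  {u v : Fin s → ℤ}

theorem IsSg.mul_self (hu : IsSg u) (k : Fin s) : u k * u k = 1 := by
  rcases hu k with h | h <;> rw [h] <;> rfl

theorem IsSg.abs (hu : IsSg u) (k : Fin s) : |u k| = 1 := by
  rcases hu k with h | h <;> rw [h] <;> rfl

theorem IsSg.one : IsSg (fun _ : Fin s => (1 : ℤ)) := fun _ => Or.inl rfl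

theorem IsSg.mul (hu : IsSg u) (hv : IsSg v) (σ : Equiv.Perm (Fin s)) :
    IsSg fun k => u k * v (σ k) := by
  intro k
  rcases hu k with h | h <;> rcases hv (σ k) with h' | h' <;> simp [h, h']

theorem IsSg.comp (hu : IsSg u) (σ : Equiv.Perm (Fin s)) : IsSg fun k => u (σ k) :=
  fun k => hu (σ k)

theorem prod_mul_comp (u v : Fin s → ℤ) (σ : Equiv.Perm (Fin s)) :
    ∏ k, u k * v (σ k) = (∏ k, u k) * ∏ k, v k := by
  rw [prod_mul_distrib, Equiv.prod_comp σ v]

theorem IsSg.prod_eq (hu : IsSg u) : ∏ k, u k = 1 ∨ ∏ k, u k = -1 := by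
  have : ∀ S : Finset (Fin s), ∏ k ∈ S, u k = 1 ∨ ∏ k ∈ S, u k = -1 := by
    classical
    intro S
    induction S using Finset.induction_on with
    | empty => simp
    | insert a S ha ih =>
      rw [prod_insert ha]
      rcases hu a with h | h <;> rcases ih with h' | h' <;> simp [h, h']
  exact this univ

theorem app_inv (σ : Equiv.Perm (Fin s)) (k : Fin s) : σ (σ⁻¹ k) = k := σ.apply_symm_apply k

theorem inv_app (σ : Equiv.Perm (Fin s)) (k : Fin s) : σ⁻¹ (σ k) = k := σ.symm_apply_apply k

theorem act_apply (σ : Equiv.Perm (Fin s)) (u : Fin s → ℤ) (a : Cell s q) (k : Fin s)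
    (c : Fin (q + 1)) : act σ u a (k, c) = u k * a (σ k, c) := rfl

theorem act_act (σ ρ : Equiv.Perm (Fin s)) (u v : Fin s → ℤ) (a : Cell s q) :
    act σ u (act ρ v a) = act (ρ * σ) (fun k => u k * v (σ k)) a := by
  funext ⟨k, c⟩
  simp only [act_apply, Equiv.Perm.coe_mul, Function.comp_apply]
  ring

theorem act_one (a : Cell s q) : act 1 (fun _ => 1) a = a := by
  funext ⟨k, c⟩
  simp [act_apply]

theorem act_inv (hu : IsSg u) (a : Cell s q) :
    act σ⁻¹ (fun k => u (σ⁻¹ k)) (act σ u a) = a := by
  rw [act_act]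
  have h : (fun k => u (σ⁻¹ k) * u (σ⁻¹ k)) = fun _ => 1 := by
    funext k; exact hu.mul_self _
  rw [h, mul_inv_cancel, act_one]

theorem even_mul_sg {t a : ℤ} (ht : t = 1 ∨ t = -1) : Even (t * a) ↔ Even a := by
  rcases ht with h | h <;> simp [h]

theorem Up.act {a b : Cell s q} (h : Up a b) (hu : IsSg u) (σ : Equiv.Perm (Fin s)) :
    Up (act σ u a) (act σ u b) := by
  obtain ⟨⟨k, c⟩, h1, h2, h3⟩ := h
  refine ⟨(σ⁻¹ k, c), ?_, ?_, ?_⟩
  · rw [act_apply, even_mul_sg (hu _), app_inv]; exact h1
  · rw [act_apply, act_apply, app_inv, ← mul_sub, abs_mul, hu.abs, one_mul]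
    exact h2
  · rintro ⟨k', c'⟩ hne
    rw [act_apply, act_apply, h3]
    intro h
    apply hne
    rw [Prod.mk.injEq] at h ⊢
    refine ⟨?_, h.2⟩
    rw [← h.1, inv_app]

theorem Val.act {a : Cell s q} (h : Val n a) (hu : IsSg u) (σ : Equiv.Perm (Fin s)) :
    Val n (act σ u a) := by
  refine ⟨?_, ?_⟩
  · rintro ⟨k, c⟩
    rw [act_apply, abs_mul, hu.abs, one_mul]
    exact h.1 _
  · intro k
    obtain ⟨c, hc⟩ := h.2 (σ k)
    refine ⟨c, ?_⟩
    rw [act_apply, abs_mul, hu.abs, one_mul]
    exact hc

theorem IsCh.act (hT : IsCh n s q T) (hu : IsSg u) (σ : Equiv.Perm (Fin s)) :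
    IsCh n s q fun j => Pool.Agent.SPW.act σ u (T j) := by
  refine ⟨?_, fun j => (hT.2.1 j).act hu σ, hT.2.2.act hu σ⟩
  rintro ⟨k, c⟩
  change Even (u k * T 0 (σ k, c))
  rw [even_mul_sg (hu k)]
  exact hT.1 _

theorem oc_act (hu : IsSg u) (σ : Equiv.Perm (Fin s)) (a : Cell s q) (k : Fin s) :
    oc (act σ u a) k = oc a (σ k) := by
  unfold oc
  congr 1
  refine filter_congr fun c _ => ?_
  rw [act_apply, ← Int.not_even_iff_odd, ← Int.not_even_iff_odd, even_mul_sg (hu k)]

/-- a step opens one coordinate of one block. -/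
theorem Up.oc {a b : Cell s q} (h : Up a b) : ∃ k, Pool.Agent.SPW.oc b k =
    Pool.Agent.SPW.oc a k + 1 ∧ ∀ k', k' ≠ k → Pool.Agent.SPW.oc b k' = Pool.Agent.SPW.oc a k' := by
  classical
  obtain ⟨⟨k, c⟩, h1, h2, h3⟩ := h
  refine ⟨k, ?_, ?_⟩
  · unfold Pool.Agent.SPW.oc
    have h4 : (univ.filter fun d => Odd (b (k, d))) =
        insert c (univ.filter fun d => Odd (a (k, d))) := by
      ext d
      rw [mem_insert, mem_filter, mem_filter]
      by_cases hd : d = c
      · rw [hd]; simp [odd_of_abs_sub h1 h2]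
      · rw [h3 (k, d) fun h => hd (congrArg Prod.snd h)]; simp [hd]
    rw [h4, card_insert_of_notMem]
    rw [mem_filter]
    rintro ⟨_, h5⟩
    exact absurd h1 (Int.not_even_iff_odd.2 h5)
  · intro k' hk
    unfold Pool.Agent.SPW.oc
    congr 1
    refine filter_congr fun d _ => ?_
    rw [h3 (k', d) fun h => hk (congrArg Prod.fst h)]

/-- steps opening the block `k` -/
def stp (T : Fin (q * s + 1) → Cell s q) (k : Fin s) : Finset (Fin (q * s)) :=
  univ.filter fun j => oc (T j.succ) k = oc (T j.castSucc) k + 1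

theorem card_stp (hT : IsCh n s q T) (k : Fin s) : (stp T k).card = q := by
  classical
  have h1 : ∀ j : Fin (q * s + 1), oc (T j) k =
      (univ.filter fun i : Fin (q * s) => (i : ℕ) < (j : ℕ) ∧
        oc (T i.succ) k = oc (T i.castSucc) k + 1).card := by
    intro j
    induction j using Fin.induction with
    | zero =>
      rw [filter_false_of_mem, card_empty]
      · unfold oc
        rw [card_eq_zero, filter_eq_empty_iff]
        intro c _
        exact Int.not_odd_iff_even.2 (hT.1 _)
      · rintro i _ ⟨h, _⟩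
        exact absurd h (Nat.not_lt_zero _)
    | succ j ih =>
      obtain ⟨k', hk1, hk2⟩ := (hT.2.1 j).oc
      by_cases hk : k = k'
      · subst hk
        have h2 : (univ.filter fun i : Fin (q * s) => (i : ℕ) < (j.succ : ℕ) ∧
            oc (T i.succ) k = oc (T i.castSucc) k + 1) =
            insert j (univ.filter fun i : Fin (q * s) => (i : ℕ) < (j.castSucc : ℕ) ∧
              oc (T i.succ) k = oc (T i.castSucc) k + 1) := by
          ext i
          rw [mem_insert, mem_filter, mem_filter, Fin.val_succ, Fin.val_castSucc]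
          by_cases hi : i = j
          · rw [hi]; simp [hk1]
          · have : (i : ℕ) ≠ (j : ℕ) := fun h => hi (Fin.ext h)
            simp only [hi, mem_univ, true_and, false_or]
            constructor
            · rintro ⟨h, h'⟩; exact ⟨by omega, h'⟩
            · rintro ⟨h, h'⟩; exact ⟨by omega, h'⟩
        rw [h2, card_insert_of_notMem, ← ih, hk1]
        rw [mem_filter, Fin.val_castSucc]
        rintro ⟨_, h, _⟩
        exact lt_irrefl _ h
      · rw [hk2 k hk, ih]
        congr 1
        ext i
        rw [mem_filter, mem_filter, Fin.val_succ, Fin.val_castSucc]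
        simp only [mem_univ, true_and]
        constructor
        · rintro ⟨h, h'⟩; exact ⟨by omega, h'⟩
        · rintro ⟨h, h'⟩
          refine ⟨?_, h'⟩
          rcases eq_or_lt_of_le (Nat.lt_succ_iff.1 h) with h3 | h3
          · have h4 : i = j := Fin.ext h3
            rw [h4, hk2 k hk] at h'
            omega
          · exact h3
  have h2 := h1 (Fin.last (q * s))
  rw [hT.oc_top] at h2
  refine Eq.trans ?_ h2.symm
  unfold stp
  congr 1
  refine filter_congr fun j _ => ?_
  rw [Fin.val_last]
  simp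

/-- **The action is free on facets.** -/
theorem facet_free (hn : 1 ≤ n) (hq : 2 ≤ q) (hs : 1 ≤ s) (hT : IsCh n s q T) (hu : IsSg u)
    (i : Fin (q * s + 1)) (h : ∀ j, j ≠ i → act σ u (T j) = T j) : σ = 1 ∧ ∀ k, u k = 1 := by
  classical
  have hN : 2 ≤ q * s := by nlinarith
  have hσ : σ = 1 := by
    by_contra hne
    obtain ⟨k, hk⟩ : ∃ k, σ k ≠ k := by
      by_contra hcon
      push Not at hcon
      exact hne (Equiv.ext hcon)
    have hoc : ∀ j, j ≠ i → oc (T j) k = oc (T j) (σ k) := by
      intro j hj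
      conv_lhs => rw [← h j hj]
      exact oc_act hu σ _ k
    have hdisj : Disjoint (stp T k) (stp T (σ k)) := by
      rw [disjoint_left]
      intro j h1 h2
      rw [stp, mem_filter] at h1 h2
      obtain ⟨k', hk1, hk2⟩ := (hT.2.1 j).oc
      have h3 : k = k' := by
        by_contra hcon
        have := hk2 k hcon
        omega
      have h4 : σ k = k' := by
        by_contra hcon
        have := hk2 (σ k) hcon
        omega
      exact hk (h4.trans h3.symm)
    have hsub : stp T k ∪ stp T (σ k) ⊆
        (univ.filter fun j : Fin (q * s) => j.succ = i) ∪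
          univ.filter fun j : Fin (q * s) => j.castSucc = i := by
      intro j hj
      rw [mem_union, mem_filter, mem_filter]
      by_contra hcon
      push Not at hcon
      have h1 : j.succ ≠ i := hcon.1 (mem_univ _)
      have h2 : j.castSucc ≠ i := hcon.2 (mem_univ _)
      have h3 := hoc _ h1
      have h4 := hoc _ h2
      obtain ⟨k', hk1, hk2⟩ := (hT.2.1 j).oc
      rw [mem_union, stp, stp, mem_filter, mem_filter] at hj
      rcases hj with ⟨_, hj⟩ | ⟨_, hj⟩
      · have h5 : k = k' := by
          by_contra hcon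
          have := hk2 k hcon
          omega
        have h6 := hk2 (σ k) (by rw [← h5]; exact hk)
        omega
      · have h5 : σ k = k' := by
          by_contra hcon
          have := hk2 (σ k) hcon
          omega
        have h6 := hk2 k (by rw [← h5]; exact Ne.symm hk)
        omega
    have h1 := card_le_card hsub
    rw [card_union_of_disjoint hdisj, card_stp hT, card_stp hT] at h1
    have h2 := card_union_le (univ.filter fun j : Fin (q * s) => j.succ = i)
      (univ.filter fun j : Fin (q * s) => j.castSucc = i)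
    have h3 : (univ.filter fun j : Fin (q * s) => j.succ = i).card ≤ 1 := by
      rw [card_le_one]
      intro a ha b hb
      rw [mem_filter] at ha hb
      exact Fin.succ_injective _ (ha.2.trans hb.2.symm)
    have h4 : (univ.filter fun j : Fin (q * s) => j.castSucc = i).card ≤ 1 := by
      rw [card_le_one]
      intro a ha b hb
      rw [mem_filter] at ha hb
      exact Fin.castSucc_injective _ (ha.2.trans hb.2.symm)
    omega
  refine ⟨hσ, fun k => ?_⟩
  obtain ⟨j, hj⟩ : ∃ j : Fin (q * s + 1), j ≠ i := by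
    by_cases hi : i = 0
    · refine ⟨Fin.last _, ?_⟩
      rw [hi, Ne, Fin.ext_iff, Fin.val_last, Fin.val_zero]
      omega
    · exact ⟨0, Ne.symm hi⟩
  obtain ⟨c, hc⟩ := (hT.val j).2 k
  have h1 := congrFun (h j hj) (k, c)
  rw [act_apply, hσ, Equiv.Perm.one_apply] at h1
  have h2 : T j (k, c) ≠ 0 := by
    intro h0
    rw [h0, abs_zero] at hc
    omega
  exact mul_right_cancel₀ h2 (h1.trans (one_mul _).symm)

end Pool.Agent.SPW
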