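import Pool.Agent.SPW.G3

/-! The sign of a cell. -/

open Finset

namespace Pool.Agent.SPW

variable {n s q : ℕ}

theorem ls_eq {b : Fin (q + 1) → ℤ} {c : Fin (q + 1)} (hc : b c ≠ 0) (h : ∀ d, c < d → b d = 0) :
    ls b = (b c).sign := by
  classical
  have hex : ∃ c, b c ≠ 0 ∧ ∀ d, c < d → b d = 0 := ⟨c, hc, h⟩
  unfold ls
  rw [dif_pos hex]
  have h1 := hex.choose_spec
  have h2 : hex.choose = c := by
    rcases lt_trichotomy hex.choose c with h3 | h3 | h3
    · exact absurd (h1.2 c h3) hc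
    · exact h3
    · exact absurd (h _ h3) h1.1
  rw [h2]

theorem exists_last {b : Fin (q + 1) → ℤ} (hb : ∃ c, b c ≠ 0) :
    ∃ c, b c ≠ 0 ∧ ∀ d, c < d → b d = 0 := by
  classical
  obtain ⟨c, hc⟩ := hb
  obtain ⟨m, hm, hmax⟩ := exists_max_image (univ.filter fun c => b c ≠ 0) id
    ⟨c, by rw [mem_filter]; exact ⟨mem_univ _, hc⟩⟩
  rw [mem_filter] at hm
  refine ⟨m, hm.2, fun d hd => ?_⟩
  by_contra hne
  have := hmax d (by rw [mem_filter]; exact ⟨mem_univ _, hne⟩)
  exact absurd hd (not_lt.2 this)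

theorem ls_zero {b : Fin (q + 1) → ℤ} (hb : ∀ c, b c = 0) : ls b = 0 := by
  classical
  unfold ls
  rw [dif_neg]
  rintro ⟨c, hc, _⟩
  exact hc (hb c)

theorem ls_sg {b : Fin (q + 1) → ℤ} (hb : ∃ c, b c ≠ 0) : ls b = 1 ∨ ls b = -1 := by
  obtain ⟨c, hc, h⟩ := exists_last hb
  rw [ls_eq hc h]
  rcases lt_or_gt_of_ne hc with h | h
  · exact Or.inr (Int.sign_eq_neg_one_of_neg h)
  · exact Or.inl (Int.sign_eq_one_of_pos h)

theorem ls_smul {t : ℤ} (ht : t = 1 ∨ t = -1) (b : Fin (q + 1) → ℤ) :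
    ls (fun c => t * b c) = t * ls b := by
  by_cases hb : ∃ c, b c ≠ 0
  · obtain ⟨c, hc, h⟩ := exists_last hb
    have ht0 : t ≠ 0 := by rcases ht with h | h <;> rw [h] <;> decide
    rw [ls_eq hc h, ls_eq (c := c) (mul_ne_zero ht0 hc) fun d hd => by rw [h d hd, mul_zero],
      Int.sign_mul]
    rcases ht with h | h <;> rw [h] <;> rfl
  · push Not at hb
    rw [ls_zero hb, ls_zero fun c => by rw [hb c, mul_zero], mul_zero]

theorem eps_act {σ : Equiv.Perm (Fin s)} {u : Fin s → ℤ} (hu : IsSg u) (a : Cell s q) :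
    eps (act σ u a) = (∏ k, u k) * eps a := by
  unfold eps
  simp only [act_apply]
  rw [← Equiv.prod_comp σ fun k => ls fun c => a (k, c), ← prod_mul_distrib]
  exact prod_congr rfl fun k _ => ls_smul (hu k) _

theorem Val.exists_ne (hn : 1 ≤ n) {a : Cell s q} (h : Val n a) (k : Fin s) :
    ∃ c, a (k, c) ≠ 0 := by
  obtain ⟨c, hc⟩ := h.2 k
  refine ⟨c, ?_⟩
  intro h0
  rw [h0, abs_zero] at hc
  omega

theorem Val.isSg_ls (hn : 1 ≤ n) {a : Cell s q} (h : Val n a) :
    IsSg fun k => ls fun c => a (k, c) := fun k => ls_sg (h.exists_ne hn k)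

theorem Val.eps_sg (hn : 1 ≤ n) {a : Cell s q} (h : Val n a) : eps a = 1 ∨ eps a = -1 :=
  (h.isSg_ls hn).prod_eq

/-- how the sign changes in one step -/
theorem eps_change (hn : 1 ≤ n) {a b : Cell s q} (hup : Up a b) (hva : Val n a)
    (h : eps b = - eps a) : ∃ k c, a (k, c) = 0 ∧ (∀ d, c < d → a (k, d) = 0) ∧
      b (k, c) = - ls (fun d => a (k, d)) ∧ ∀ y, y ≠ (k, c) → b y = a y := by
  classical
  obtain ⟨⟨k, c⟩, h1, h2, h3⟩ := hup
  have hblk : ∀ k', k' ≠ k → (fun d => b (k', d)) = fun d => a (k', d) := by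
    intro k' hk'
    funext d
    exact h3 _ fun h => hk' (congrArg Prod.fst h)
  have hls : ls (fun d => b (k, d)) = - ls fun d => a (k, d) := by
    unfold eps at h
    rw [← mul_prod_erase univ _ (mem_univ k), ← mul_prod_erase univ _ (mem_univ k),
      prod_congr rfl fun k' hk' => by rw [hblk k' (ne_of_mem_erase hk')], ← neg_mul] at h
    refine mul_right_cancel₀ ?_ h
    rw [prod_ne_zero_iff]
    intro k' _
    rcases hva.isSg_ls hn k' with h4 | h4
    · simp only at h4; rw [h4]; decide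
    · simp only at h4; rw [h4]; decide
  have hla0 : ls (fun d => a (k, d)) ≠ 0 := by
    rcases hva.isSg_ls hn k with h4 | h4
    · simp only at h4; rw [h4]; decide
    · simp only at h4; rw [h4]; decide
  have hcon : ls (fun d => b (k, d)) ≠ ls fun d => a (k, d) := by
    rw [hls]
    intro h4
    apply hla0
    omega
  obtain ⟨p, hp1, hp2⟩ := exists_last (hva.exists_ne hn k)
  have hbo : Odd (b (k, c)) := odd_of_abs_sub h1 h2
  have hbc0 : b (k, c) ≠ 0 := by
    intro h0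
    rw [h0] at hbo
    exact absurd hbo (by decide)
  have h3' : ∀ d, d ≠ c → b (k, d) = a (k, d) := fun d hd =>
    h3 _ fun h => hd (congrArg Prod.snd h)
  rcases lt_trichotomy c p with hcp | hcp | hcp
  · exfalso
    apply hcon
    rw [ls_eq (b := fun d => b (k, d)) (c := p) (by rw [h3' p hcp.ne']; exact hp1) fun d hd => by
        rw [h3' d (hcp.trans hd).ne']; exact hp2 d hd,
      ls_eq (b := fun d => a (k, d)) (c := p) hp1 hp2, h3' p hcp.ne']
  · exfalso
    subst hcp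
    apply hcon
    rw [ls_eq (b := fun d => b (k, d)) (c := c) hbc0 fun d hd => by
        rw [h3' d hd.ne']; exact hp2 d hd,
      ls_eq (b := fun d => a (k, d)) (c := c) hp1 hp2]
    obtain ⟨t, ht⟩ := h1
    rcases (abs_eq (zero_le_one' ℤ)).1 h2 with h4 | h4
    · rcases lt_or_gt_of_ne hp1 with h5 | h5
      · rw [Int.sign_eq_neg_one_of_neg h5, Int.sign_eq_neg_one_of_neg (by omega)]
      · rw [Int.sign_eq_one_of_pos h5, Int.sign_eq_one_of_pos (by omega)]
    · rcases lt_or_gt_of_ne hp1 with h5 | h5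
      · rw [Int.sign_eq_neg_one_of_neg h5, Int.sign_eq_neg_one_of_neg (by omega)]
      · rw [Int.sign_eq_one_of_pos h5, Int.sign_eq_one_of_pos (by omega)]
  · refine ⟨k, c, hp2 c hcp, fun d hd => hp2 d (hcp.trans hd), ?_, h3⟩
    rw [← hls, ls_eq (b := fun d => b (k, d)) (c := c) hbc0 fun d hd => by
      rw [h3' d hd.ne']; exact hp2 d (hcp.trans hd)]
    rw [hp2 c hcp, sub_zero] at h2
    rcases (abs_eq (zero_le_one' ℤ)).1 h2 with h4 | h4 <;> rw [h4] <;> rfl

end Pool.Agent.SPW
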