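import Pool.Agent.SPW.Par
import Pool.Agent.SPW.G2
import Pool.Agent.SPW.G4

/-! The quotient of the set of flags and the parity theorem for labels. -/

open Finset

namespace Pool.Agent.SPW

variable {n s q : ℕ}

/-- two flags differ by a permutation of the blocks and signs of product `c`. -/
def RelS (c : ℤ) (T T' : Ch n s q) : Prop :=
  ∃ σ : Equiv.Perm (Fin s), ∃ u : Fin s → ℤ, IsSg u ∧ ∏ k, u k = c ∧ ∀ j, T'.1 j = act σ u (T.1 j)

theorem RelS.refl (T : Ch n s q) : RelS 1 T T :=
  ⟨1, fun _ => 1, IsSg.one, by simp, fun j => (act_one _).symm⟩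

theorem RelS.symm {c : ℤ} {T T' : Ch n s q} (h : RelS c T T') : RelS c T' T := by
  obtain ⟨σ, u, hu, hc, h⟩ := h
  refine ⟨σ⁻¹, fun k => u (σ⁻¹ k), hu.comp _, ?_, fun j => ?_⟩
  · rw [Equiv.prod_comp σ⁻¹ u]; exact hc
  · rw [h j, act_inv hu]

theorem RelS.trans {c c' : ℤ} {T T' T'' : Ch n s q} (h : RelS c T T') (h' : RelS c' T' T'') :
    RelS (c' * c) T T'' := by
  obtain ⟨σ, u, hu, hc, h⟩ := h
  obtain ⟨ρ, v, hv, hc', h'⟩ := h'
  refine ⟨σ * ρ, fun k => v k * u (ρ k), hv.mul hu ρ, ?_, fun j => ?_⟩
  · rw [prod_mul_comp, hc, hc']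
  · rw [h' j, h j, act_act]

/-- the quotient by permutations and signs of product one -/
instance chSetoid (n s q : ℕ) : Setoid (Ch n s q) where
  r := RelS 1
  iseqv := ⟨RelS.refl, RelS.symm, fun h h' => by simpa using h.trans h'⟩

/-- classes of flags -/
abbrev Qt (n s q : ℕ) : Type := Quotient (chSetoid n s q)

theorem Qt.eq_iff {T T' : Ch n s q} : (⟦T⟧ : Qt n s q) = ⟦T'⟧ ↔ RelS 1 T T' := Quotient.eq

/-- classes of alternating flags -/
def AltCl (n s q : ℕ) : Type := {x : Qt n s q // ∃ T, ⟦T⟧ = x ∧ IsAlt T}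

theorem IsAlt.of_rel {T T' : Ch n s q} (h : RelS 1 T T') (hT : IsAlt T) : IsAlt T' := by
  obtain ⟨σ, u, hu, hc, h⟩ := h
  intro j
  rw [h j, eps_act hu, hc, one_mul]
  exact hT j

section Swap

variable (hn : 1 ≤ n) (hN : 0 < q * s)

/-- the neighbour of a flag at a position -/
noncomputable def nb (i : Fin (q * s + 1)) (T : Ch n s q) : Ch n s q :=
  ⟨Function.update T.1 i (exists_swap hn hN T.2 i).choose,
    (exists_swap hn hN T.2 i).choose_spec.2.1⟩

theorem nb_of_ne {i j : Fin (q * s + 1)} (hij : j ≠ i) (T : Ch n s q) :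
    (nb hn hN i T).1 j = T.1 j := Function.update_of_ne hij _ _

theorem nb_self_ne (i : Fin (q * s + 1)) (T : Ch n s q) : (nb hn hN i T).1 i ≠ T.1 i := by
  unfold nb
  simp only
  rw [Function.update_self]
  exact (exists_swap hn hN T.2 i).choose_spec.1

theorem nb_unique {i : Fin (q * s + 1)} {T T' : Ch n s q} (h : ∀ j, j ≠ i → T'.1 j = T.1 j)
    (h' : T'.1 i ≠ T.1 i) : T' = nb hn hN i T := by
  have h1 : T'.1 = Function.update T.1 i (T'.1 i) := by
    funext j
    by_cases hj : j = i
    · rw [hj, Function.update_self]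
    · rw [Function.update_of_ne hj]; exact h j hj
  have h2 := (exists_swap hn hN T.2 i).choose_spec.2.2 (T'.1 i) h' (by rw [← h1]; exact T'.2)
  refine Subtype.ext ?_
  rw [h1, h2]
  rfl

theorem nb_nb (i : Fin (q * s + 1)) (T : Ch n s q) : nb hn hN i (nb hn hN i T) = T := by
  refine (nb_unique hn hN (fun j hj => ?_) ?_).symm
  · exact (nb_of_ne hn hN hj T).symm
  · exact (nb_self_ne hn hN i T).symm

theorem nb_rel {i : Fin (q * s + 1)} {c : ℤ} {T T' : Ch n s q} (h : RelS c T T') :
    RelS c (nb hn hN i T) (nb hn hN i T') := by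
  obtain ⟨σ, u, hu, hc, h⟩ := h
  refine ⟨σ, u, hu, hc, ?_⟩
  have h1 : (⟨fun j => act σ u ((nb hn hN i T).1 j), (nb hn hN i T).2.act hu σ⟩ : Ch n s q) =
      nb hn hN i T' := by
    refine nb_unique hn hN (fun j hj => ?_) ?_
    · simp only
      rw [nb_of_ne hn hN hj, h j]
    · simp only
      intro h2
      rw [h i] at h2
      apply nb_self_ne hn hN i T
      have h3 := congrArg (act σ⁻¹ fun k => u (σ⁻¹ k)) h2
      rwa [act_inv hu, act_inv hu] at h3
  intro j
  rw [← h1]

end Swap

/-- **The parity theorem for labels.** -/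
theorem labels_even (hn : 1 ≤ n) (hq : 2 ≤ q) (hs : 1 ≤ s) (L : Cell s q → ℤ)
    (hL0 : ∀ a, Val n a → L a ≠ 0) (hLN : ∀ a, Val n a → |L a| ≤ ((q * s : ℕ) : ℤ))
    (hLe : ∀ σ u a, IsSg u → Val n a → L (act σ u a) = (∏ k, u k) * L a)
    (hLc : ∀ a b, Val n a → Val n b → (∀ x, |a x - b x| ≤ 1) → L a ≠ - L b) :
    Even (Nat.card (AltCl n s q)) := by
  classical
  have hN : 0 < q * s := by positivity
  have hfin : Finite (Ch n s q) := finite_ch n s q
  have hfinQ : Finite (Qt n s q) := inferInstance
  have hft : Fintype (Qt n s q) := Fintype.ofFinite _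
  let e : Qt n s q → Fin (q * s + 1) → Bool := Quotient.lift
    (fun T j => decide (eps (T.1 j) = (-1) ^ (j : ℕ))) (by
      rintro T T' ⟨σ, u, hu, hc, h⟩
      funext j
      rw [h j, eps_act hu, hc, one_mul])
  let l : Qt n s q → Fin (q * s + 1) → ℤ := Quotient.lift (fun T j => L (T.1 j)) (by
      rintro T T' ⟨σ, u, hu, hc, h⟩
      funext j
      rw [h j, hLe σ u _ hu (T.2.val j), hc, one_mul])
  let sw : Fin (q * s + 1) → Qt n s q → Qt n s q := fun i =>
    Quotient.map (nb hn hN i) fun T T' h => nb_rel hn hN h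
  let u0 : Fin s → ℤ := Function.update (fun _ => 1) ⟨0, hs⟩ (-1)
  have hu0 : IsSg u0 := by
    intro k
    by_cases hk : k = ⟨0, hs⟩
    · rw [hk]; right; exact Function.update_self _ _ _
    · left; exact Function.update_of_ne hk _ _
  have hpu0 : ∏ k, u0 k = -1 := by
    rw [← mul_prod_erase univ u0 (mem_univ ⟨0, hs⟩), prod_eq_one, mul_one]
    · exact Function.update_self _ _ _
    · intro k hk
      exact Function.update_of_ne (ne_of_mem_erase hk) _ _
  let t : Ch n s q → Ch n s q := fun T => ⟨fun j => act 1 u0 (T.1 j), T.2.act hu0 1⟩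
  have ht : ∀ T, RelS (-1) T (t T) := fun T => ⟨1, u0, hu0, hpu0, fun j => rfl⟩
  let τ : Qt n s q → Qt n s q := Quotient.map t fun T T' h => by
    have h1 := ((ht T).symm.trans h).trans (ht T')
    have h2 : RelS 1 (t T) (t T') := by simpa using h1
    exact h2
  have h : Even (Nat.card {x : Qt n s q // ∀ j, e x j = true}) := by
    refine parity_main (sw := sw) (τ := τ) (e := e) (l := l) ?_ ?_ ?_ ?_ ?_ ?_ ?_ ?_ ?_ ?_
    · intro i x
      induction x using Quotient.inductionOn with
      | h T => exact congrArg _ (nb_nb hn hN i T)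
    · intro i x
      induction x using Quotient.inductionOn with
      | h T =>
        intro h
        obtain ⟨σ, u, hu, hc, h1⟩ := Qt.eq_iff.1 h
        have h2 := facet_free (σ := σ) hn hq hs T.2 hu i fun j hj => by
          rw [← nb_of_ne hn hN hj T, ← h1 j, nb_of_ne hn hN hj T]
        apply nb_self_ne hn hN i T
        rw [h1 i, h2.1]
        have h3 : u = fun _ => 1 := funext h2.2
        rw [h3, act_one]
    · intro i x j hj
      induction x using Quotient.inductionOn with
      | h T =>
        change decide (eps ((nb hn hN i T).1 j) = (-1) ^ (j : ℕ)) =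
          decide (eps (T.1 j) = (-1) ^ (j : ℕ))
        rw [nb_of_ne hn hN hj]
    · intro i x j hj
      induction x using Quotient.inductionOn with
      | h T =>
        change L ((nb hn hN i T).1 j) = L (T.1 j)
        rw [nb_of_ne hn hN hj]
    · intro x
      induction x using Quotient.inductionOn with
      | h T =>
        have h1 := (ht T).trans (ht (t T))
        have h2 : RelS 1 T (t (t T)) := by simpa using h1
        exact (Qt.eq_iff.2 h2).symm
    · intro x j
      induction x using Quotient.inductionOn with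
      | h T =>
        change decide (eps (act 1 u0 (T.1 j)) = (-1) ^ (j : ℕ)) =
          !decide (eps (T.1 j) = (-1) ^ (j : ℕ))
        rw [eps_act hu0, hpu0]
        rcases (T.2.val j).eps_sg hn with h1 | h1 <;>
          rcases neg_one_pow_eq_or ℤ (j : ℕ) with h2 | h2 <;> rw [h1, h2] <;> decide
    · intro x j
      induction x using Quotient.inductionOn with
      | h T =>
        change L (act 1 u0 (T.1 j)) = - L (T.1 j)
        rw [hLe 1 u0 _ hu0 (T.2.val j), hpu0, neg_one_mul]
    · intro x j
      induction x using Quotient.inductionOn with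
      | h T => exact hL0 _ (T.2.val j)
    · intro x j
      induction x using Quotient.inductionOn with
      | h T => exact hLN _ (T.2.val j)
    · intro x i j
      induction x using Quotient.inductionOn with
      | h T => exact hLc _ _ (T.2.val i) (T.2.val j) (T.2.near i j)
  have h1 : ∀ x : Qt n s q, (∀ j, e x j = true) ↔ ∃ T, ⟦T⟧ = x ∧ IsAlt T := by
    intro x
    induction x using Quotient.inductionOn with
    | h T =>
      constructor
      · intro h1
        exact ⟨T, rfl, fun j => of_decide_eq_true (h1 j)⟩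
      · rintro ⟨T', h1, h2⟩ j
        have h3 : IsAlt T := h2.of_rel (Qt.eq_iff.1 h1)
        exact decide_eq_true (h3 j)
  have h2 : Nat.card (AltCl n s q) = Nat.card {x : Qt n s q // ∀ j, e x j = true} :=
    Nat.card_congr (Equiv.subtypeEquivRight fun x => (h1 x).symm)
  rw [h2]
  exact h

end Pool.Agent.SPW
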