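import Pool.Agent.SPW.R1
import Pool.Agent.SubTyp.CodMain

/-! The typical ranks of `Sub_{m-1}(SⁿV)`: the interval and the bounds for its ends, with the
upper bound from powers of two. -/

set_option autoImplicit false

open Module Set Filter

namespace Pool.Agent.SubTyp

/-- **The typical ranks of `Sub_{m-1}(SⁿV)`**. -/
theorem codim_powers {n m : ℕ} (hn : 1 ≤ n) (hm : 3 ≤ m) :
    ∃ g G : ℕ, g ≤ G ∧ (∀ d, IsTypicalRank (SymSubVar n m (m - 1)) d ↔ g ≤ d ∧ d ≤ G) ∧
      IsLeast {s : ℕ | (n - s + (m - 1)).choose (m - 1) ≤ (m - 1) * s} g ∧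
      (∀ i s, 2 ^ i ≤ m - 1 → (n - s + (m - 1)).choose (m - 1) ≤ 2 ^ i * s → G ≤ s) ∧
      (3 ≤ n → G ≤ n - 1) ∧
      (Even m → ∀ s, (m - 2) * s + 2 ≤ (n - s + (m - 1)).choose (m - 1) → s + 1 ≤ G) := by
  obtain ⟨m, rfl⟩ : ∃ m', m = m' + 3 := ⟨m - 3, by omega⟩
  have hch : ∀ e, (e + (m + 3 - 1)).choose (m + 3 - 1) = cN (m + 3) e := fun e => by
    rw [cN_eq_choose (m + 2)]
    rfl
  obtain ⟨g, G, h1, h2, h3, h4, h5, h6⟩ := codim_interval hn hm
  refine ⟨g, G, h1, h2, h3, ?_, h5, h6⟩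
  have hne : Nonempty (Gr (m + 3) (m + 2)) := exists_gr (by omega)
  have hK := exists_symK_ne_bot (n := n) (m := m + 3) (r := m + 2) (by omega) (by omega)
  have hG : IsTypicalRank (SymSubVar n (m + 3) (m + 2)) G := (h2 G).2 ⟨h1, le_refl _⟩
  have hle : ∀ s, Dense (RankLE (symK n (m + 3) (m + 2)) s) → G ≤ s := by
    intro s hs
    rw [symSubVar_eq] at hG
    exact typical_le _ hK hs hG
  have hpow : ∀ i s, 1 ≤ i → 2 ^ i ≤ m + 2 → cN (m + 3) (n - s) ≤ 2 ^ i * s → G ≤ s := by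
    intro i s hi him hs
    have hs0 : 0 < s := by
      rcases Nat.eq_zero_or_pos s with h | h
      · rw [h, mul_zero] at hs
        have h7 : 0 < cN (m + 3) (n - 0) := cN_pos (m + 2) (n - 0)
        omega
      · exact h
    rcases le_total s n with h | h
    · exact hle s (dense_rankLE_pow (k := n - s) hi him (by omega) hs0 hs)
    · refine (hle n ?_).trans h
      refine dense_rankLE (k := 0) (by omega) (by omega) ?_
      have h := cN_zero (m + 3)
      unfold cN at h
      omega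
  intro i s him hs
  rw [hch] at hs
  rcases Nat.eq_zero_or_pos i with hi | hi
  · refine hpow 1 s le_rfl (by omega) (hs.trans ?_)
    rw [hi]
    omega
  · exact hpow i s hi (by omega) hs

/-- the arithmetic of the case of `q + 2` variables -/
theorem power_arith {n g G q : ℕ} (hq : 1 ≤ q) (hgG : g ≤ G)
    (hg : IsLeast {s : ℕ | (n - s + (q + 1)).choose (q + 1) ≤ (q + 1) * s} g)
    (hup : ∀ s, (n - s + (q + 1)).choose (q + 1) ≤ q * s → G ≤ s)
    (hlow : ∀ s, q * s + 2 ≤ (n - s + (q + 1)).choose (q + 1) → s + 1 ≤ G) {G₀ : ℕ}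
    (h0 : IsLeast {s : ℕ | (n - s + (q + 1)).choose (q + 1) ≤ q * s} G₀) :
    G = G₀ ∨ (G + 1 = G₀ ∧ (n - G + (q + 1)).choose (q + 1) = q * G + 1) := by
  have hG := hup G₀ h0.1
  have hpos : ∀ k : ℕ, 1 ≤ (k + (q + 1)).choose (q + 1) := fun k => Nat.choose_pos (by omega)
  have hg1 : 1 ≤ g := by
    rcases Nat.eq_zero_or_pos g with h | h
    · have h1 : (n - g + (q + 1)).choose (q + 1) ≤ (q + 1) * g := hg.1
      rw [h, mul_zero] at h1
      have := hpos (n - 0)
      omega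
    · exact h
  obtain ⟨s, rfl⟩ : ∃ s, G₀ = s + 1 := ⟨G₀ - 1, by omega⟩
  have h1 : ¬ (n - s + (q + 1)).choose (q + 1) ≤ q * s := fun h => by
    have := h0.2 h
    omega
  by_cases h2 : q * s + 2 ≤ (n - s + (q + 1)).choose (q + 1)
  · left
    have := hlow s h2
    omega
  · have h3 : (n - s + (q + 1)).choose (q + 1) = q * s + 1 := by omega
    rcases Nat.eq_zero_or_pos s with hs | hs
    · left
      omega
    · obtain ⟨t, rfl⟩ : ∃ t, s = t + 1 := ⟨s - 1, by omega⟩
      have h4 : (n - (t + 1) + (q + 1)).choose (q + 1) ≤ (n - t + (q + 1)).choose (q + 1) :=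
        Nat.choose_le_choose (q + 1) (by omega)
      have h5 := hlow t (by rw [mul_add] at h3; omega)
      rcases Nat.eq_or_lt_of_le h5 with h6 | h6
      · right
        exact ⟨by omega, by rw [← h6]; exact h3⟩
      · left
        omega

end Pool.Agent.SubTyp
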