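import Pool.Agent.SPW.Alt

/-! The abstract parity theorem. -/

open Finset

namespace Pool.Agent.SPW

theorem sum_invol {X : Type*} [Fintype X] (g : X → X) (hg : ∀ x, g (g x) = x)
    (hg' : ∀ x, g x ≠ x) (f : X → ZMod 2) (hf : ∀ x, f (g x) = f x) : ∑ x, f x = 0 := by
  refine sum_involution (fun x _ => g x) ?_ ?_ ?_ ?_
  · intro x _
    rw [hf]; exact CharTwo.add_self_eq_zero _
  · intro x _ _; exact hg' x
  · intro x _; exact mem_univ _
  · intro x _; exact hg x

/-- the indices up to `j` -/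
def Lo (N j : ℕ) : Finset (Fin (N + 1)) := univ.filter fun i => (i : ℕ) ≤ j

theorem mem_Lo {N j : ℕ} {i : Fin (N + 1)} : i ∈ Lo N j ↔ (i : ℕ) ≤ j := by simp [Lo]

theorem Lo_erase {N j : ℕ} (hj : j < N) :
    (Lo N (j + 1)).erase ⟨j + 1, by omega⟩ = Lo N j := by
  ext i
  rw [mem_erase, mem_Lo, mem_Lo, Ne, Fin.ext_iff]
  simp only
  omega

section Par

variable {N : ℕ} {X : Type*} [Fintype X] {sw : Fin (N + 1) → X → X} {τ : X → X}
  {e : X → Fin (N + 1) → Bool} {l : X → Fin (N + 1) → ℤ}

/-- signs false in `[j, m)` and true from `m` on, times alternating labels up to `j`. -/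
private noncomputable def A (e : X → Fin (N + 1) → Bool) (l : X → Fin (N + 1) → ℤ) (j m : ℕ) :
    ZMod 2 :=
  ∑ x, ind ((∀ i : Fin (N + 1), j ≤ (i : ℕ) → (i : ℕ) < m → e x i = false) ∧
    ∀ i : Fin (N + 1), m ≤ (i : ℕ) → e x i = true) * ind (Alt 1 (Lo N j) (l x))

private noncomputable def U (e : X → Fin (N + 1) → Bool) (l : X → Fin (N + 1) → ℤ) (j : ℕ) :
    ZMod 2 :=
  ∑ x, ind (∀ i : Fin (N + 1), j ≤ (i : ℕ) → e x i = true) *
    (ind (Alt 1 (Lo N j) (l x)) + ind (Alt (-1) (Lo N j) (l x)))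

private theorem ind_split {p q r : Prop} (h1 : p ↔ q ∨ r) (h2 : ¬ (q ∧ r)) :
    ind p = ind q + ind r := by
  by_cases hq : q
  · rw [ind_pos hq, ind_pos (h1.2 (Or.inl hq)), ind_neg fun hr => h2 ⟨hq, hr⟩, add_zero]
  · by_cases hr : r
    · rw [ind_pos hr, ind_pos (h1.2 (Or.inr hr)), ind_neg hq, zero_add]
    · rw [ind_neg hq, ind_neg hr, ind_neg fun hp => (h1.1 hp).elim hq hr, add_zero]

private theorem A_step (hsw : ∀ i x, sw i (sw i x) = x) (hsw' : ∀ i x, sw i x ≠ x)
    (hswe : ∀ i x j, j ≠ i → e (sw i x) j = e x j)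
    (hswl : ∀ i x j, j ≠ i → l (sw i x) j = l x j) {j m : ℕ} (hjm : j < m) (hm : m ≤ N) :
    A e l j m = A e l j (m + 1) := by
  let c : Fin (N + 1) := ⟨m, by omega⟩
  have h1 : A e l j m + A e l j (m + 1) = 0 := by
    unfold A
    rw [← sum_add_distrib]
    have h2 : ∀ x, ind ((∀ i : Fin (N + 1), j ≤ (i : ℕ) → (i : ℕ) < m → e x i = false) ∧
        ∀ i : Fin (N + 1), m ≤ (i : ℕ) → e x i = true) * ind (Alt 1 (Lo N j) (l x)) +
        ind ((∀ i : Fin (N + 1), j ≤ (i : ℕ) → (i : ℕ) < m + 1 → e x i = false) ∧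
        ∀ i : Fin (N + 1), m + 1 ≤ (i : ℕ) → e x i = true) * ind (Alt 1 (Lo N j) (l x)) =
        ind ((∀ i : Fin (N + 1), j ≤ (i : ℕ) → (i : ℕ) < m → e x i = false) ∧
        ∀ i : Fin (N + 1), m + 1 ≤ (i : ℕ) → e x i = true) * ind (Alt 1 (Lo N j) (l x)) := by
      intro x
      rw [← add_mul]
      congr 1
      refine (ind_split ?_ ?_).symm
      · constructor
        · rintro ⟨h3, h4⟩
          by_cases hc : e x c = true
          · refine Or.inl ⟨h3, fun i hi => ?_⟩
            rcases eq_or_lt_of_le hi with h | h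
            · have : i = c := Fin.ext h.symm
              rw [this]; exact hc
            · exact h4 i h
          · refine Or.inr ⟨fun i hi hi' => ?_, h4⟩
            rcases eq_or_lt_of_le (Nat.lt_succ_iff.1 hi') with h | h
            · have : i = c := Fin.ext h
              rw [this]; simpa using hc
            · exact h3 i hi h
        · rintro (⟨h3, h4⟩ | ⟨h3, h4⟩)
          · exact ⟨h3, fun i hi => h4 i (by omega)⟩
          · exact ⟨fun i hi hi' => h3 i hi (by omega), h4⟩
      · rintro ⟨⟨_, h4⟩, ⟨h5, _⟩⟩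
        have h6 := h4 c le_rfl
        have h7 := h5 c hjm.le (Nat.lt_succ_self m)
        rw [h6] at h7
        exact absurd h7 (by decide)
    rw [sum_congr rfl fun x _ => h2 x]
    refine sum_invol (sw c) (hsw c) (hsw' c) _ fun x => ?_
    congr 1
    · refine ind_congr (and_congr ?_ ?_)
      · refine forall_congr' fun i => forall_congr' fun _ => forall_congr' fun hi => ?_
        rw [hswe c x i (by rintro rfl; exact lt_irrefl _ hi)]
      · refine forall_congr' fun i => forall_congr' fun hi => ?_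
        rw [hswe c x i (by rintro rfl; exact absurd hi (Nat.not_succ_le_self _))]
    · refine ind_congr (alt_congr fun i hi => hswl c x i ?_)
      rintro rfl
      exact absurd (mem_Lo.1 hi) (by simp only [c]; omega)
  have h3 := CharTwo.add_self_eq_zero (A e l j (m + 1))
  linear_combination h1 - h3

private theorem A_last (hsw : ∀ i x, sw i (sw i x) = x) (hsw' : ∀ i x, sw i x ≠ x)
    (hswe : ∀ i x j, j ≠ i → e (sw i x) j = e x j)
    (hswl : ∀ i x j, j ≠ i → l (sw i x) j = l x j) {j : ℕ} (hj : j ≤ N) :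
    A e l j (j + 1) = A e l j (N + 1) := by
  have h : ∀ d, j + 1 + d ≤ N + 1 → A e l j (j + 1) = A e l j (j + 1 + d) := by
    intro d
    induction d with
    | zero => intro _; rfl
    | succ d ih =>
      intro hd
      rw [ih (by omega)]
      exact A_step hsw hsw' hswe hswl (by omega) (by omega)
  have := h (N - j) (by omega)
  rwa [show j + 1 + (N - j) = N + 1 by omega] at this

private theorem U_step (hsw : ∀ i x, sw i (sw i x) = x) (hsw' : ∀ i x, sw i x ≠ x)
    (hswe : ∀ i x j, j ≠ i → e (sw i x) j = e x j)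
    (hswl : ∀ i x j, j ≠ i → l (sw i x) j = l x j)
    (hτ : ∀ x, τ (τ x) = x) (hτe : ∀ x j, e (τ x) j = !(e x j))
    (hτl : ∀ x j, l (τ x) j = -(l x j))
    (hl0 : ∀ x j, l x j ≠ 0) (hlc : ∀ x i j, l x i ≠ -(l x j)) {j : ℕ} (hj : j < N) :
    U e l (j + 1) = U e l j := by
  classical
  let c : Fin (N + 1) := ⟨j + 1, by omega⟩
  have hc : c ∈ Lo N (j + 1) := mem_Lo.2 le_rfl
  have h1 : U e l (j + 1) = ∑ x, ind (∀ i : Fin (N + 1), j + 1 ≤ (i : ℕ) → e x i = true) *
      ind (Alt 1 (Lo N j) (l x)) := by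
    unfold U
    have h2 : ∀ x, ind (∀ i : Fin (N + 1), j + 1 ≤ (i : ℕ) → e x i = true) *
        (ind (Alt 1 (Lo N (j + 1)) (l x)) + ind (Alt (-1) (Lo N (j + 1)) (l x))) =
        ∑ i ∈ Lo N (j + 1), ind (∀ i : Fin (N + 1), j + 1 ≤ (i : ℕ) → e x i = true) *
          ind (Alt 1 ((Lo N (j + 1)).erase i) (l x)) := by
      intro x
      rw [alt_parity (fun i _ => hl0 x i) (fun i _ k _ => hlc x i k), mul_sum]
    rw [sum_congr rfl fun x _ => h2 x, sum_comm, ← add_sum_erase _ _ hc,
      sum_eq_zero (s := (Lo N (j + 1)).erase c), add_zero]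
    · rw [show (Lo N (j + 1)).erase c = Lo N j from Lo_erase hj]
    · intro i hi
      have hic : i ≠ c := ne_of_mem_erase hi
      have hij : (i : ℕ) ≤ j := by
        have h3 := mem_Lo.1 (mem_of_mem_erase hi)
        rcases eq_or_lt_of_le h3 with h | h
        · exact absurd (Fin.ext h) hic
        · omega
      refine sum_invol (sw i) (hsw i) (hsw' i) _ fun x => ?_
      congr 1
      · refine ind_congr (forall_congr' fun k => forall_congr' fun hk => ?_)
        rw [hswe i x k (by rintro rfl; omega)]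
      · exact ind_congr (alt_congr fun k hk => hswl i x k (ne_of_mem_erase hk))
  have h2 : ∑ x, ind (∀ i : Fin (N + 1), j + 1 ≤ (i : ℕ) → e x i = true) *
      ind (Alt 1 (Lo N j) (l x)) = A e l j j + A e l j (j + 1) := by
    unfold A
    rw [← sum_add_distrib]
    refine sum_congr rfl fun x _ => ?_
    rw [← add_mul]
    congr 1
    let d : Fin (N + 1) := ⟨j, by omega⟩
    refine ind_split ?_ ?_
    · constructor
      · intro h3
        by_cases hd : e x d = true
        · refine Or.inl ⟨fun i hi hi' => absurd hi' (not_lt.2 hi), fun i hi => ?_⟩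
          rcases eq_or_lt_of_le hi with h | h
          · have : i = d := Fin.ext h.symm
            rw [this]; exact hd
          · exact h3 i h
        · refine Or.inr ⟨fun i hi hi' => ?_, h3⟩
          have : i = d := Fin.ext (by simp only [d]; omega)
          rw [this]; simpa using hd
      · rintro (⟨_, h4⟩ | ⟨_, h4⟩)
        · exact fun i hi => h4 i (by omega)
        · exact h4
    · rintro ⟨⟨_, h4⟩, ⟨h5, _⟩⟩
      have h6 := h4 d le_rfl
      have h7 := h5 d le_rfl (Nat.lt_succ_self j)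
      rw [h6] at h7
      exact absurd h7 (by decide)
  have h3 : A e l j (N + 1) = ∑ x, ind (∀ i : Fin (N + 1), j ≤ (i : ℕ) → e x i = true) *
      ind (Alt (-1) (Lo N j) (l x)) := by
    unfold A
    refine Fintype.sum_equiv ⟨τ, τ, hτ, hτ⟩ _ _ fun x => ?_
    simp only [Equiv.coe_fn_mk]
    congr 1
    · refine ind_congr ⟨fun h i hi => ?_, fun h => ⟨fun i hi _ => ?_, fun i hi => ?_⟩⟩
      · rw [hτe, h.1 i hi i.2]; rfl
      · have := h i hi
        rw [hτe] at this
        simpa using this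
      · exact absurd i.2 (by omega)
    · refine ind_congr ?_
      rw [alt_congr (l' := fun i => - l x i) fun i _ => hτl x i, alt_neg, neg_neg]
  have h4 : A e l j j = ∑ x, ind (∀ i : Fin (N + 1), j ≤ (i : ℕ) → e x i = true) *
      ind (Alt 1 (Lo N j) (l x)) := by
    unfold A
    refine sum_congr rfl fun x _ => ?_
    congr 1
    refine ind_congr ⟨fun h => h.2, fun h => ⟨fun i hi hi' => absurd hi' (not_lt.2 hi), h⟩⟩
  rw [h1, h2, A_last hsw hsw' hswe hswl hj.le, h3, h4]
  unfold U
  rw [← sum_add_distrib]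
  refine sum_congr rfl fun x _ => ?_
  rw [mul_add]

/-- **The abstract parity theorem.** -/
theorem parity_main (hsw : ∀ i x, sw i (sw i x) = x) (hsw' : ∀ i x, sw i x ≠ x)
    (hswe : ∀ i x j, j ≠ i → e (sw i x) j = e x j)
    (hswl : ∀ i x j, j ≠ i → l (sw i x) j = l x j)
    (hτ : ∀ x, τ (τ x) = x) (hτe : ∀ x j, e (τ x) j = !(e x j))
    (hτl : ∀ x j, l (τ x) j = -(l x j))
    (hl0 : ∀ x j, l x j ≠ 0) (hlN : ∀ x j, |l x j| ≤ N) (hlc : ∀ x i j, l x i ≠ -(l x j)) :
    Even (Nat.card {x : X // ∀ j, e x j = true}) := by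
  classical
  have h0 : ∀ j, j ≤ N → U e l j = U e l 0 := by
    intro j
    induction j with
    | zero => intro _; rfl
    | succ j ih =>
      intro hj
      rw [U_step hsw hsw' hswe hswl hτ hτe hτl hl0 hlc (by omega), ih (by omega)]
  have h1 : U e l N = 0 := by
    unfold U
    refine sum_eq_zero fun x _ => ?_
    have h2 : ∀ b : ℤ, ¬ Alt b (Lo N N) (l x) := by
      intro b h
      have h3 := alt_card h (fun i _ => hl0 x i) (fun i _ => hlN x i)
      have h4 : Lo N N = univ := by
        ext i; simp only [mem_Lo, mem_univ, iff_true]; omega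
      rw [h4, card_univ, Fintype.card_fin] at h3
      omega
    rw [ind_neg (h2 _), ind_neg (h2 _), add_zero, mul_zero]
  have h2 : U e l 0 = (Nat.card {x : X // ∀ j, e x j = true} : ZMod 2) := by
    unfold U
    have h3 : Lo N 0 = {0} := by
      ext i
      rw [mem_Lo, mem_singleton, Fin.ext_iff]
      simp
    rw [Nat.card_eq_fintype_card, Fintype.card_subtype, card_eq_sum_ones, Nat.cast_sum,
      sum_filter]
    refine sum_congr rfl fun x _ => ?_
    rw [h3, alt_single (hl0 x 0), mul_one]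
    by_cases h : ∀ j, e x j = true
    · rw [if_pos h, ind_pos fun i _ => h i, Nat.cast_one]
    · rw [if_neg h, ind_neg]
      intro h4
      exact h fun i => h4 i (Nat.zero_le _)
  rw [← ZMod.natCast_eq_zero_iff_even, ← h2, ← h0 N le_rfl, h1]

end Par

end Pool.Agent.SPW
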