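import Pool.Agent.SPW.C4

/-! A symmetric map of `s` vectors of `ℝ^(q+1)`, `q` a power of two, homogeneous in each of them,
with values in a space of dimension at most `q s`, vanishes on some `s` non-zero vectors. -/

open Finset Module

namespace Pool.Agent.SPW

variable {N : ℕ}

/-- coordinates of absolute value at least `δ` -/
noncomputable def big (δ : ℝ) (v : Fin N → ℝ) : Finset (Fin N) := univ.filter fun j => δ ≤ |v j|

open Classical in
/-- signed index of the first coordinate of absolute value at least `δ` -/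
noncomputable def lab (δ : ℝ) (v : Fin N → ℝ) : ℤ :=
  if h : (big δ v).Nonempty then
    (if 0 < v ((big δ v).min' h) then 1 else -1) * ((((big δ v).min' h : Fin N) : ℕ) + 1)
  else 0

theorem big_nonempty {δ : ℝ} (hδ : 0 < δ) {v : Fin N → ℝ} (hv : δ ≤ ‖v‖) : (big δ v).Nonempty := by
  by_contra hcon
  rw [not_nonempty_iff_eq_empty, big, filter_eq_empty_iff] at hcon
  have h1 : ‖v‖ < δ := (pi_norm_lt_iff hδ).2 fun j => by
    rw [Real.norm_eq_abs]; exact not_le.1 (hcon (mem_univ j))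
  exact absurd hv (not_le.2 h1)

theorem big_neg (δ : ℝ) (v : Fin N → ℝ) : big δ (-v) = big δ v := by
  unfold big
  refine filter_congr fun j _ => ?_
  rw [Pi.neg_apply, abs_neg]

theorem abs_lab {δ : ℝ} {v : Fin N → ℝ} (h : (big δ v).Nonempty) :
    |lab δ v| = (((big δ v).min' h : Fin N) : ℕ) + 1 := by
  unfold lab
  rw [dif_pos h, abs_mul]
  have h1 : |(if 0 < v ((big δ v).min' h) then (1 : ℤ) else -1)| = 1 := by
    split_ifs <;> simp
  rw [h1, one_mul, abs_of_nonneg (by positivity)]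

theorem lab_ne {δ : ℝ} (hδ : 0 < δ) {v : Fin N → ℝ} (hv : δ ≤ ‖v‖) : lab δ v ≠ 0 := by
  intro h
  have h1 := abs_lab (big_nonempty hδ hv)
  rw [h, abs_zero] at h1
  omega

theorem lab_le {δ : ℝ} (hδ : 0 < δ) {v : Fin N → ℝ} (hv : δ ≤ ‖v‖) : |lab δ v| ≤ (N : ℤ) := by
  rw [abs_lab (big_nonempty hδ hv)]
  have := ((big δ v).min' (big_nonempty hδ hv)).2
  omega

theorem mem_min {δ : ℝ} {v : Fin N → ℝ} (h : (big δ v).Nonempty) :
    δ ≤ |v ((big δ v).min' h)| := by
  have h1 : ∀ j ∈ big δ v, δ ≤ |v j| := fun j hj => (mem_filter.1 hj).2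
  exact h1 _ ((big δ v).min'_mem h)

theorem lab_neg {δ : ℝ} (hδ : 0 < δ) {v : Fin N → ℝ} (hv : δ ≤ ‖v‖) :
    lab δ (-v) = - lab δ v := by
  have h := big_nonempty hδ hv
  have h2 : (big δ (-v)).Nonempty := by rw [big_neg]; exact h
  have h3 : (big δ (-v)).min' h2 = (big δ v).min' h := by
    congr 1; exact big_neg δ v
  unfold lab
  rw [dif_pos h, dif_pos h2, h3, Pi.neg_apply]
  have h4 := mem_min h
  have h5 : v ((big δ v).min' h) ≠ 0 := by
    intro h0
    rw [h0, abs_zero] at h4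
    linarith
  rcases lt_or_gt_of_ne h5 with h6 | h6
  · rw [if_pos (by linarith), if_neg (by linarith)]; ring
  · rw [if_neg (by linarith), if_pos h6]; ring

theorem lab_near {δ : ℝ} (hδ : 0 < δ) {v w : Fin N → ℝ} (hv : δ ≤ ‖v‖) (hw : δ ≤ ‖w‖)
    (h : dist v w < δ) : lab δ v ≠ - lab δ w := by
  intro heq
  have hv1 := big_nonempty hδ hv
  have hw1 := big_nonempty hδ hw
  have h1 := abs_lab hv1
  rw [heq, abs_neg, abs_lab hw1] at h1
  have h2 : (big δ w).min' hw1 = (big δ v).min' hv1 := Fin.ext (by omega)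
  unfold lab at heq
  rw [dif_pos hv1, dif_pos hw1, h2] at heq
  have h3 := mem_min hv1
  have h4 := mem_min hw1
  rw [h2] at h4
  set j := (big δ v).min' hv1
  have h5 : |v j - w j| < δ := by
    have := (dist_le_pi_dist v w j).trans_lt h
    rwa [Real.dist_eq] at this
  rw [abs_lt] at h5
  by_cases h6 : 0 < v j
  · by_cases h7 : 0 < w j
    · rw [if_pos h6, if_pos h7] at heq
      omega
    · rw [abs_of_pos h6] at h3
      rw [abs_of_nonpos (not_lt.1 h7)] at h4
      linarith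
  · by_cases h7 : 0 < w j
    · rw [abs_of_nonpos (not_lt.1 h6)] at h3
      rw [abs_of_pos h7] at h4
      linarith
    · rw [if_neg h6, if_neg h7] at heq
      omega

section Smul

variable {V W : Type*} [AddCommGroup V] [Module ℝ V] [AddCommGroup W] [Module ℝ W]

theorem map_smul_prod {Ψ : Multiset V → W} (hΨ : ∀ (a : ℝ) v m, Ψ ((a • v) ::ₘ m) = a • Ψ (v ::ₘ m))
    {ι : Type*} (S : Finset ι) (u : ι → ℝ) (x : ι → V) (m : Multiset V) :
    Ψ ((S.val.map fun k => u k • x k) + m) = (∏ k ∈ S, u k) • Ψ (S.val.map x + m) := by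
  classical
  induction S using Finset.induction_on generalizing m with
  | empty => simp
  | insert a S ha ih =>
    rw [insert_val_of_notMem ha, Multiset.map_cons, Multiset.map_cons, Multiset.cons_add,
      Multiset.cons_add, hΨ, ← Multiset.add_cons, ih, prod_insert ha, mul_smul, Multiset.add_cons]

end Smul

/-- the point of the product of spheres of a cell -/
noncomputable def pt (n : ℕ) {s q : ℕ} (a : Cell s q) : Fin s → Fin (q + 1) → ℝ :=
  fun k c => (a (k, c) : ℝ) / (2 * n)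

theorem pt_mem {n s q : ℕ} (hn : 1 ≤ n) {a : Cell s q} (ha : Val n a) (k : Fin s) :
    pt n a k ∈ Metric.sphere (0 : Fin (q + 1) → ℝ) 1 := by
  have hn' : (0 : ℝ) < 2 * n := by positivity
  rw [mem_sphere_iff_norm, sub_zero]
  have habs : ∀ c, ‖pt n a k c‖ = (|a (k, c)| : ℤ) / (2 * n) := by
    intro c
    rw [pt, Real.norm_eq_abs, abs_div, abs_of_pos hn', Int.cast_abs]
  refine le_antisymm ?_ ?_
  · rw [pi_norm_le_iff_of_nonneg zero_le_one]
    intro c
    rw [habs, div_le_one hn']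
    have := ha.1 (k, c)
    exact_mod_cast this
  · obtain ⟨c, hc⟩ := ha.2 k
    refine le_trans ?_ (norm_le_pi_norm (pt n a k) c)
    rw [habs, hc]
    push_cast
    rw [div_self hn'.ne']

theorem pt_act {n s q : ℕ} (σ : Equiv.Perm (Fin s)) (u : Fin s → ℤ) (a : Cell s q) :
    pt n (act σ u a) = fun k => (u k : ℝ) • pt n a (σ k) := by
  funext k c
  rw [Pi.smul_apply, smul_eq_mul, pt, pt, act_apply]
  push_cast
  ring

theorem dist_pt {n s q : ℕ} (hn : 1 ≤ n) {a b : Cell s q} (h : ∀ x, |a x - b x| ≤ 1) :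
    dist (pt n a) (pt n b) ≤ 1 / (2 * n) := by
  have hn' : (0 : ℝ) < 2 * n := by positivity
  have h0 : (0 : ℝ) ≤ 1 / (2 * n) := by positivity
  rw [dist_pi_le_iff h0]
  intro k
  rw [dist_pi_le_iff h0]
  intro c
  rw [Real.dist_eq, pt, pt, ← sub_div, abs_div, abs_of_pos hn', div_le_div_iff_of_pos_right hn']
  have := h (k, c)
  exact_mod_cast this

variable {W : Type*} [NormedAddCommGroup W] [NormedSpace ℝ W]

theorem exists_zero_of_odd_card [FiniteDimensional ℝ W] {q s : ℕ} (hq2 : 2 ≤ q) (hs : 1 ≤ s)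
    (hodd : ∀ n, 1 ≤ n → Odd (Nat.card (AltCl n s q)))
    (hW : finrank ℝ W ≤ q * s) (Ψ : Multiset (Fin (q + 1) → ℝ) → W)
    (hΨ : ∀ (a : ℝ) v m, Ψ ((a • v) ::ₘ m) = a • Ψ (v ::ₘ m))
    (hcont : Continuous fun x : Fin s → Fin (q + 1) → ℝ => Ψ (univ.val.map x)) :
    ∃ x : Fin s → Fin (q + 1) → ℝ, (∀ k, x k ≠ 0) ∧ Ψ (univ.val.map x) = 0 := by
  classical
  by_contra hcon
  push Not at hcon
  obtain ⟨ι, hι⟩ := (finrank_le_iff_exists_linearMap (R := ℝ) (M := W)
    (M' := Fin (q * s) → ℝ)).1 (by rw [finrank_fin_fun]; exact hW)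
  let F : (Fin s → Fin (q + 1) → ℝ) → Fin (q * s) → ℝ := fun x => ι (Ψ (univ.val.map x))
  have hF : Continuous F := ι.continuous_of_finiteDimensional.comp hcont
  let K : Set (Fin s → Fin (q + 1) → ℝ) := Set.univ.pi fun _ => Metric.sphere 0 1
  have hK : IsCompact K := isCompact_univ_pi fun _ => isCompact_sphere _ _
  have hKne : K.Nonempty := by
    rw [Set.univ_pi_nonempty_iff]
    intro _
    exact NormedSpace.sphere_nonempty.2 zero_le_one
  have hK0 : ∀ x ∈ K, F x ≠ 0 := by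
    intro x hx h0
    refine hcon x (fun k hk => ?_) (hι (by rw [map_zero]; exact h0))
    have := hx k (Set.mem_univ k)
    rw [hk] at this
    simp at this
  obtain ⟨x₀, hx₀, hmin⟩ := hK.exists_isMinOn hKne (f := fun x => ‖F x‖) hF.norm.continuousOn
  obtain ⟨δ, hδ, hδF⟩ : ∃ δ > 0, ∀ x ∈ K, δ ≤ ‖F x‖ :=
    ⟨‖F x₀‖, norm_pos_iff.2 (hK0 x₀ hx₀), fun x hx => hmin hx⟩
  obtain ⟨η, hη, hηF⟩ := Metric.uniformContinuousOn_iff.1
    (hK.uniformContinuousOn_of_continuous hF.continuousOn) δ hδ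
  obtain ⟨n, hn⟩ := exists_nat_gt (1 / η)
  have hn1 : 1 ≤ n := by
    rcases Nat.eq_zero_or_pos n with h | h
    · rw [h, Nat.cast_zero] at hn
      exact absurd hn (not_lt.2 (by positivity))
    · exact h
  have hnη : (1 : ℝ) / (2 * n) < η := by
    have h1 : (0 : ℝ) < n := by exact_mod_cast hn1
    rw [div_lt_iff₀ (by positivity)]
    rw [div_lt_iff₀ hη] at hn
    nlinarith
  have hptK : ∀ a : Cell s q, Val n a → pt n a ∈ K := fun a ha k _ => pt_mem hn1 ha k
  have hFact : ∀ (σ : Equiv.Perm (Fin s)) (u : Fin s → ℤ) (a : Cell s q),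
      F (pt n (act σ u a)) = (∏ k, (u k : ℝ)) • F (pt n a) := by
    intro σ u a
    simp only [F]
    rw [pt_act]
    have h1 := map_smul_prod hΨ univ (fun k => (u k : ℝ)) (fun k => pt n a (σ k)) 0
    rw [add_zero, add_zero] at h1
    rw [h1, map_smul]
    congr 3
    have h2 : (fun k => pt n a (σ k)) = pt n a ∘ σ := rfl
    rw [h2, ← Multiset.map_map, Multiset.map_univ_val_equiv]
  have heven := labels_even (n := n) hn1 hq2 hs (fun a => lab δ (F (pt n a)))
    (fun a ha => lab_ne hδ (hδF _ (hptK a ha)))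
    (fun a ha => lab_le hδ (hδF _ (hptK a ha)))
    (fun σ u a hu ha => by
      rw [hFact]
      have h1 : (∏ k, (u k : ℝ)) = ((∏ k, u k : ℤ) : ℝ) := by push_cast; rfl
      rcases hu.prod_eq with h | h
      · rw [h1, h, Int.cast_one, one_smul, one_mul]
      · rw [h1, h, Int.cast_neg, Int.cast_one, neg_one_smul, neg_one_mul]
        exact lab_neg hδ (hδF _ (hptK a ha)))
    (fun a b ha hb hab => lab_near hδ (hδF _ (hptK a ha)) (hδF _ (hptK b hb))
      (hηF _ (hptK a ha) _ (hptK b hb) ((dist_pt hn1 hab).trans_lt hnη)))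
  exact (Nat.not_even_iff_odd.2 (hodd n hn1)) heven

/-- **Main topological lemma.** -/
theorem exists_zero_pow [FiniteDimensional ℝ W] {i s : ℕ} (hi : 1 ≤ i) (hs : 1 ≤ s)
    (hW : finrank ℝ W ≤ 2 ^ i * s) (Ψ : Multiset (Fin (2 ^ i + 1) → ℝ) → W)
    (hΨ : ∀ (a : ℝ) v m, Ψ ((a • v) ::ₘ m) = a • Ψ (v ::ₘ m))
    (hcont : Continuous fun x : Fin s → Fin (2 ^ i + 1) → ℝ => Ψ (univ.val.map x)) :
    ∃ x : Fin s → Fin (2 ^ i + 1) → ℝ, (∀ k, x k ≠ 0) ∧ Ψ (univ.val.map x) = 0 := by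
  have hq2 : 2 ≤ 2 ^ i := by
    calc 2 = 2 ^ 1 := by norm_num
      _ ≤ 2 ^ i := Nat.pow_le_pow_right (by norm_num) hi
  exact exists_zero_of_odd_card hq2 hs (fun n hn => odd_altCl hn i s) hW Ψ hΨ hcont

end Pool.Agent.SPW
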