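import Pool.Agent.SubTyp.Ternary
import Pool.Agent.SPW.T1

/-! The codimension one case: density of rank at most `s`, from the parity theorem for powers of
two. -/

open MvPolynomial Module Set
open scoped ENNReal Topology LinearAlgebra.Projectivization

namespace Pool.Agent.SubTyp

/-- the inclusion `ℝ^(q+1) → ℝ^(m+3)` -/
def incq (q m : ℕ) : (Fin (q + 1) → ℝ) →ₗ[ℝ] (Fin (m + 3) → ℝ) where
  toFun v := fun i => if h : i.1 < q + 1 then v ⟨i.1, h⟩ else 0
  map_add' v w := by
    funext i
    by_cases h : i.1 < q + 1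
    · simp only [h, dite_true, Pi.add_apply]
    · simp only [h, dite_false, Pi.add_apply, add_zero]
  map_smul' c v := by
    funext i
    by_cases h : i.1 < q + 1
    · simp only [h, dite_true, Pi.smul_apply, RingHom.id_apply]
    · simp only [h, dite_false, Pi.smul_apply, RingHom.id_apply, smul_zero]

theorem incq_injective {q m : ℕ} (hqm : q + 1 ≤ m + 3) : Function.Injective (incq q m) := by
  intro v w h
  funext i
  have h1 := congrFun h ⟨i.1, by omega⟩
  simp only [incq, LinearMap.coe_mk, AddHom.coe_mk, i.2, dite_true] at h1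
  exact h1

section Pair

variable {m n k s E q : ℕ}

/-- coincidence set: solutions with `x i = x j`. -/
def coincq (q n k E : ℕ) (i j : Fin s) : Set (PairSp m n s E) :=
  {w | ∃ x : Fin s → Fin (q + 1) → ℝ, (∀ l, x l ≠ 0) ∧ x i = x j ∧
    pairF n k E (List.ofFn fun l => incq q m (x l)) w = 0}

theorem small_coincq (hq : 0 < q) (hqm : q + 1 ≤ m + 3) (hn : n = k + s)
    (hdim : Fintype.card (Sym (Fin (m + 3)) k) + E = q * s)
    {i j : Fin s} (hij : i ≠ j) : Small (coincq (m := m) q n k E i j) := by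
  classical
  let r : Fin s → {l : Fin s // l ≠ i} := fun l => if h : l = i then ⟨j, hij.symm⟩ else ⟨l, h⟩
  let Λ : ({l : Fin s // l ≠ i} → Fin (q + 1)) → ({l : Fin s // l ≠ i} → Fin q → ℝ) →
      Fin s → Fin (m + 3) → ℝ :=
    fun c y l => incq q m ((c (r l)).insertNth (α := fun _ => ℝ) 1 (y (r l)))
  have hΛ : ∀ c, ContDiff ℝ 1 (Λ c) := by
    intro c
    refine contDiff_pi.2 fun l => ?_
    have h1 : ContDiff ℝ 1 fun v : Fin (q + 1) → ℝ => incq q m v :=
      (LinearMap.toContinuousLinearMap (incq q m)).contDiff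
    refine h1.comp ?_
    refine contDiff_pi.2 fun d => ?_
    refine Fin.succAboveCases (c (r l)) ?_ (fun q' => ?_) d
    · have : (fun x : {l : Fin s // l ≠ i} → Fin q → ℝ =>
          ((c (r l)).insertNth (α := fun _ => ℝ) 1 (x (r l)) : Fin (q + 1) → ℝ) (c (r l)))
          = fun _ => 1 := by funext x; simp
      rw [this]; exact contDiff_const
    · have : (fun x : {l : Fin s // l ≠ i} → Fin q → ℝ =>
          ((c (r l)).insertNth (α := fun _ => ℝ) 1 (x (r l)) : Fin (q + 1) → ℝ)
            ((c (r l)).succAbove q')) = fun x => x (r l) q' := by funext x; simp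
      rw [this]
      exact (contDiff_apply ℝ ℝ q').comp (contDiff_apply ℝ (Fin q → ℝ) (r l))
  have hs : 0 < s := lt_of_le_of_lt (Nat.zero_le _) i.2
  have hX : finrank ℝ ({l : Fin s // l ≠ i} → Fin q → ℝ) = q * (s - 1) := by
    rw [Module.finrank_pi_fintype]
    simp [mul_comm]
  have hsm : ∀ c, Small {w : PairSp m n s E | ∃ y,
      Function.Surjective (pairF (s := s) n k E (List.ofFn (Λ c y))) ∧
        pairF n k E (List.ofFn (Λ c y)) w = 0} := fun c =>
    small_of_family _ (contDiff_pairF (hΛ c)) (finrank_pair_le hn) (by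
      rw [hX, finrank_pairVal, hdim]
      exact Nat.mul_lt_mul_of_pos_left (by omega) hq)
  refine (Small.iUnion' (S := fun c => {w : PairSp m n s E | ∃ y,
      Function.Surjective (pairF (s := s) n k E (List.ofFn (Λ c y))) ∧
        pairF n k E (List.ofFn (Λ c y)) w = 0}) ?_ hsm).mono ?_
  · refine lt_of_lt_of_le ?_ (finrank_pair_le (m := m) (E := E) hn)
    rw [finrank_pairVal, hdim]
    exact Nat.mul_pos hq hs
  · rintro w ⟨x, hx0, hxij, hw⟩
    have hxr : ∀ l, x (r l) = x l := by
      intro l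
      by_cases h : l = i
      · simp only [r, h, dite_true]; exact hxij.symm
      · simp only [r, h, dite_false]
    choose c hc using fun l => Function.ne_iff.1 (hx0 l)
    simp only [Pi.zero_apply] at hc
    let y : {l : Fin s // l ≠ i} → Fin q → ℝ := fun l =>
      (c l).removeNth ((x l (c l))⁻¹ • x l)
    have hy : ∀ l : {l : Fin s // l ≠ i},
        ((c l).insertNth (α := fun _ => ℝ) 1 (y l) : Fin (q + 1) → ℝ) = (x l (c l))⁻¹ • x l := by
      intro l
      have h2 := Fin.insertNth_self_removeNth (α := fun _ => ℝ) (c l) ((x l (c l))⁻¹ • x l)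
      rw [Pi.smul_apply, smul_eq_mul, inv_mul_cancel₀ (hc l)] at h2
      exact h2
    let a : Fin s → ℝ := fun l => (x (r l) (c (r l)))⁻¹
    have hΛy : Λ (fun l => c l) y = fun l => a l • incq q m (x l) := by
      funext l
      simp only [Λ]
      rw [hy (r l), map_smul, hxr l]
      simp only [a]
      rw [hxr l]
    refine mem_iUnion.2 ⟨fun l => c l, y, ?_, ?_⟩
    · refine pairF_surj (by rw [List.length_ofFn]) hn ?_
      intro L hL
      obtain ⟨l, rfl⟩ := List.mem_ofFn.1 hL
      rw [hΛy]
      refine smul_ne_zero (inv_ne_zero (hc _)) ?_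
      intro h0
      exact hx0 l (incq_injective hqm (by rw [h0, map_zero]))
    · rw [hΛy, pairF_ofFn_smul, hw, smul_zero]

theorem isClosed_coincq (i j : Fin s) : IsClosed (coincq (m := m) q n k E i j) := by
  let X : Set (Fin s → Metric.sphere (0 : Fin (q + 1) → ℝ) 1) := {x | x i = x j}
  have hX : IsClosed X := isClosed_eq (continuous_apply i) (continuous_apply j)
  have hXc : CompactSpace X := isCompact_iff_compactSpace.1 hX.isCompact
  have hc0 : Continuous fun x : Fin s → Fin (q + 1) → ℝ =>
      pairF (m := m) (s := s) n k E (List.ofFn fun l => incq q m (x l)) := by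
    refine (contDiff_pairF (Λ := fun (x : Fin s → Fin (q + 1) → ℝ) l => incq q m (x l)) ?_).continuous
    refine contDiff_pi.2 fun l => ?_
    have h1 : ContDiff ℝ 1 fun v : Fin (q + 1) → ℝ => incq q m v :=
      (LinearMap.toContinuousLinearMap (incq q m)).contDiff
    exact h1.comp (contDiff_apply ℝ (Fin (q + 1) → ℝ) l)
  have h1 : IsClosed {p : X × PairSp m n s E |
      pairF n k E (List.ofFn fun l => incq q m ((p.1.1 l : Fin (q + 1) → ℝ))) p.2 = 0} := by
    refine isClosed_eq ?_ continuous_const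
    refine Continuous.clm_apply ?_ continuous_snd
    have h2 : Continuous fun p : X × PairSp m n s E => fun l => (p.1.1 l : Fin (q + 1) → ℝ) :=
      continuous_pi fun l => continuous_subtype_val.comp
        ((continuous_apply l).comp (continuous_subtype_val.comp continuous_fst))
    exact hc0.comp h2
  have h2 := isClosedMap_snd_of_compactSpace _ h1
  convert h2 using 1
  ext w
  constructor
  · rintro ⟨x, hx0, hxij, hw⟩
    refine ⟨(⟨fun l => ⟨‖x l‖⁻¹ • x l, normalize_mem_sphere (hx0 l)⟩, ?_⟩, w), ?_, rfl⟩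
    · apply Subtype.ext
      simp only
      rw [hxij]
    · change pairF n k E (List.ofFn fun l => incq q m (‖x l‖⁻¹ • x l)) w = 0
      simp only [map_smul]
      rw [pairF_ofFn_smul, hw, smul_zero]
  · rintro ⟨⟨⟨x, hx⟩, w'⟩, hw, rfl⟩
    exact ⟨fun l => x l, fun l => ne_zero_of_mem_sphere (x l), congrArg Subtype.val hx, hw⟩

/-- **Existence of a zero**, from the Borsuk-Ulam theorem. -/
theorem exists_pair_zeroq {i : ℕ} (hi : 1 ≤ i) (hqi : q = 2 ^ i) (hs : 0 < s)
    (hdim : Fintype.card (Sym (Fin (m + 3)) k) + E ≤ q * s)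
    (w : PairSp m n s E) : ∃ x : Fin s → Fin (q + 1) → ℝ, (∀ l, x l ≠ 0) ∧
      pairF n k E (List.ofFn fun l => incq q m (x l)) w = 0 := by
  let Ψ : Multiset (Fin (q + 1) → ℝ) → PairVal m k E := fun u => pairF n k E (u.toList.map (incq q m)) w
  have hΨ : ∀ (a : ℝ) v u, Ψ ((a • v) ::ₘ u) = a • Ψ (v ::ₘ u) := by
    intro a v u
    simp only [Ψ]
    have h1 : ∀ v : Fin (q + 1) → ℝ, ((v ::ₘ u).toList.map (incq q m)).Perm
        (incq q m v :: u.toList.map (incq q m)) := by
      intro v
      rw [← List.map_cons]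
      refine List.Perm.map _ ?_
      rw [← Multiset.coe_eq_coe, ← Multiset.cons_coe, Multiset.coe_toList, Multiset.coe_toList]
    rw [pairF_perm (h1 _), pairF_perm (h1 _), map_smul, pairF_cons_smul]
  have hΨx : ∀ x : Fin s → Fin (q + 1) → ℝ, Ψ (Finset.univ.val.map x) =
      pairF n k E (List.ofFn fun l => incq q m (x l)) w := by
    intro x
    refine pairF_perm ?_ w
    have h2 : List.ofFn (fun l => incq q m (x l)) = (List.ofFn x).map (incq q m) := by
      rw [List.map_ofFn]; rfl
    rw [h2]
    refine List.Perm.map _ ?_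
    rw [← Multiset.coe_eq_coe, Multiset.coe_toList, Fin.univ_val_map]
  subst hqi
  obtain ⟨x, hx, hz⟩ := Pool.Agent.SPW.exists_zero_pow (s := s) (W := PairVal m k E) hi hs
    (by rw [finrank_pairVal]; exact hdim) Ψ hΨ (by
      simp only [hΨx]
      have hc0 : Continuous fun x : Fin s → Fin (2 ^ i + 1) → ℝ =>
          pairF (m := m) (s := s) n k E (List.ofFn fun l => incq (2 ^ i) m (x l)) := by
        refine (contDiff_pairF (Λ := fun (x : Fin s → Fin (2 ^ i + 1) → ℝ) l => incq (2 ^ i) m (x l)) ?_).continuous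
        refine contDiff_pi.2 fun l => ?_
        have h1 : ContDiff ℝ 1 fun v : Fin (2 ^ i + 1) → ℝ => incq (2 ^ i) m v :=
          (LinearMap.toContinuousLinearMap (incq (2 ^ i) m)).contDiff
        exact h1.comp (contDiff_apply ℝ (Fin (2 ^ i + 1) → ℝ) l)
      exact hc0.clm_apply continuous_const)
  exact ⟨x, hx, by rw [← hΨx]; exact hz⟩

/-- the bad pairs -/
def badPairq (q m n k s E : ℕ) : Set (PairSp m n s E) :=
  ⋃ ij : {ab : Fin s × Fin s // ab.1 ≠ ab.2}, coincq q n k E ij.1.1 ij.1.2

theorem small_badPairq (hq : 0 < q) (hqm : q + 1 ≤ m + 3) (hs : 0 < s) (hn : n = k + s)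
    (hdim : Fintype.card (Sym (Fin (m + 3)) k) + E = q * s) : Small (badPairq q m n k s E) := by
  refine Small.iUnion' ?_ fun ij => small_coincq hq hqm hn hdim ij.2
  refine lt_of_lt_of_le ?_ (finrank_pair_le (m := m) (E := E) hn)
  rw [finrank_pairVal, hdim]
  exact Nat.mul_pos hq hs

theorem isClosed_badPairq : IsClosed (badPairq q m n k s E) :=
  isClosed_iUnion_of_finite fun _ => isClosed_coincq _ _

theorem rankLE_of_not_badPairq {i : ℕ} (hi : 1 ≤ i) (hqi : q = 2 ^ i) (hqm : q + 1 ≤ m + 3)
    (hs : 0 < s) (hn : n = k + s)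
    (hdim : Fintype.card (Sym (Fin (m + 3)) k) + E ≤ q * s) {w : PairSp m n s E}
    (hw : w ∉ badPairq q m n k s E) : w.1 ∈ RankLE (symK n (m + 3) (m + 2)) s := by
  classical
  obtain ⟨x, hx0, hz⟩ := exists_pair_zeroq hi hqi hs hdim w
  have hL : ∀ l, incq q m (x l) ≠ 0 := fun l h0 =>
    hx0 l (incq_injective hqm (by rw [h0, map_zero]))
  refine rankLE_of_kill (m := m + 2) (fun l => incq q m (x l)) hL ?_ ?_
  · rw [List.pairwise_ofFn]
    intro i j hij c hc
    have hij' : i ≠ j := ne_of_lt hij
    have hxij : x i = c • x j := incq_injective hqm (by rw [map_smul]; exact hc)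
    have hc0 : c ≠ 0 := by
      rintro rfl
      rw [zero_smul] at hxij
      exact hx0 i hxij
    apply hw
    refine mem_iUnion.2 ⟨⟨(i, j), hij'⟩, Function.update x i (x j), ?_, ?_, ?_⟩
    · intro l
      by_cases h : l = i
      · rw [h, Function.update_self]; exact hx0 j
      · rw [Function.update_of_ne h]; exact hx0 l
    · simp only
      rw [Function.update_self, Function.update_of_ne hij'.symm]
    · have h1 : (fun l => incq q m (x l)) = fun l =>
          (if l = i then c else 1 : ℝ) • incq q m (Function.update x i (x j) l) := by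
        funext l
        by_cases h : l = i
        · rw [h, Function.update_self, if_pos rfl, ← map_smul, ← hxij]
        · rw [Function.update_of_ne h, if_neg h, one_smul]
      rw [h1, pairF_ofFn_smul] at hz
      refine (smul_eq_zero.1 hz).resolve_left ?_
      rw [Finset.prod_ite_eq' Finset.univ i]
      simpa using hc0
  · have h1 := congrArg Prod.fst hz
    rw [pairF_apply] at h1
    exact (opF_eq_zero_iff (by rw [List.length_ofFn]; exact hn) w.1).1 h1

end Pair

/-- rank at most `s` is a dense condition. -/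
theorem dense_rankLE_pow {m n k s i : ℕ} (hi : 1 ≤ i) (him : 2 ^ i ≤ m + 2) (hn : n = k + s)
    (hs : 0 < s) (hdim : Fintype.card (Sym (Fin (m + 3)) k) ≤ 2 ^ i * s) :
    Dense (RankLE (symK n (m + 3) (m + 2)) s) := by
  obtain ⟨E, hE⟩ : ∃ E, Fintype.card (Sym (Fin (m + 3)) k) + E = 2 ^ i * s :=
    ⟨2 ^ i * s - Fintype.card (Sym (Fin (m + 3)) k), by omega⟩
  have hd := (small_badPairq (q := 2 ^ i) (m := m) (by positivity) (by omega) hs hn hE).dense_compl
  rw [dense_iff_inter_open]
  intro O hO hne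
  obtain ⟨T, hT⟩ := hne
  obtain ⟨w, hw, hwb⟩ := hd.inter_open_nonempty (Prod.fst ⁻¹' O) (hO.preimage continuous_fst)
    ⟨(T, 0), hT⟩
  exact ⟨w.1, hw, rankLE_of_not_badPairq hi rfl (by omega) hs hn hE.le hwb⟩


end Pool.Agent.SubTyp
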